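import Mathlib

set_option autoImplicit false

/-!
# Jensen polynomials of the Riemann xi function: definitions and specifications (helper1)

Aim: for every `ε > 0` there is `C` such that the Jensen polynomials `J^{d,n}` are hyperbolic for all
`d ≥ 1` and `n ≥ (1/8 + ε) log d + C`.
-/

namespace Pool.Agent.J4H1.JP

open Complex Filter Topology Polynomial
open scoped ComplexConjugate

/-- `ξ(1/2 + z)`, `ξ(s) = s (s - 1) Λ(s) / 2`. -/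
noncomputable def Xi (z : ℂ) : ℂ := ((z ^ 2 - 1 / 4) * completedRiemannZeta₀ (1 / 2 + z) + 1) / 2

/-- `F(z²) = ξ(1/2 + z)` -/
noncomputable def F (x : ℂ) : ℂ := Xi (x ^ (1 / 2 : ℂ))

/-- Real entire functions of order at most 3/4. -/
structure Ent (f : ℂ → ℂ) : Prop where
  diff : Differentiable ℂ f
  sym : ∀ z : ℂ, f (conj z) = conj (f z)
  gro : ∃ C : ℝ, 0 ≤ C ∧ ∀ z : ℂ, ‖f z‖ ≤ Real.exp (C * (1 + ‖z‖) ^ (3 / 4 : ℝ))

/-- locally uniform limit of real polynomials all of whose (complex) roots are zeros of `f`, and every zero of `f` is a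
root of almost all of them -/
def RApp (f : ℂ → ℂ) : Prop := ∃ P : ℕ → ℝ[X], (∀ N, P N ≠ 0) ∧
  (∀ (N : ℕ) (z : ℂ), aeval z (P N) = 0 → f z = 0) ∧
  (∀ z : ℂ, f z = 0 → ∀ᶠ N in atTop, aeval z (P N) = 0) ∧
  TendstoLocallyUniformly (fun (N : ℕ) (z : ℂ) => aeval z (P N)) f atTop

/-- the Jensen polynomial of degree `d` of the Taylor coefficients of `f` at `0` -/
noncomputable def Jf (f : ℂ → ℂ) (d : ℕ) (X : ℂ) : ℂ :=
  ∑ j ∈ Finset.range (d + 1), (d.choose j : ℂ) * iteratedDeriv j f 0 * X ^ j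

/-- the derivatives of `F` -/
noncomputable def Fn (n : ℕ) : ℂ → ℂ := iteratedDeriv n F

/-! ## generic -/

/-- G1 (Cauchy). -/
def S_der : Prop := ∀ f : ℂ → ℂ, Ent f → Ent (deriv f)

/-- G2 (Hadamard for order `< 1`). -/
def S_had : Prop := ∀ f : ℂ → ℂ, Ent f → (∃ z, f z ≠ 0) → RApp f

/-- G3 (Jensen's discs). With `P N → f`: if `z` is outside all the closed discs, `Im z > 0` and `f z ≠ 0`, every pair
of roots (and every real root) contributes a negative number to `Im (P'/P)(z)`. -/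
def S_disc : Prop := ∀ f : ℂ → ℂ, Ent f → (∃ z, deriv f z ≠ 0) → ∀ z : ℂ, z.im ≠ 0 → deriv f z = 0 →
  ∃ x : ℂ, f x = 0 ∧ x.im ≠ 0 ∧ ‖z - x.re‖ ≤ |x.im|

/-- G4 (Gauss-Lucas). -/
def S_gl : Prop := ∀ f : ℂ → ℂ, Ent f → (∃ z, deriv f z ≠ 0) → ∀ K : Set ℂ, Convex ℝ K → IsClosed K →
  (∀ z, f z = 0 → z ∈ K) → ∀ z, deriv f z = 0 → z ∈ K

/-- G5: `∑ 1/a² = (f'(0)/f(0))² - f''(0)/f(0)`, all `Re 1/a² ≥ 0`, so each is at most the sum. -/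
def S_sum : Prop := ∀ f : ℂ → ℂ, Ent f → f 0 ≠ 0 → (∀ a, f a = 0 → 0 ≤ (1 / a ^ 2).re) →
  ∀ a, f a = 0 → (1 / a ^ 2).re ≤ ((deriv f 0 / f 0) ^ 2 - deriv (deriv f) 0 / f 0).re

/-- G6 (sector lemma; de Bruijn, Chasse). If all the nonreal zeros `a` of `f` satisfy
`d · (Im a)² ≤ ‖a‖²` (that is `sin² φ ≤ 1/d`), then the Jensen polynomial of degree `d` has real zeros only.
Proof: `f(D) x^d = x^d J(1/x)`; a pair of zeros of `f` is the operator `1 - 2 (Re a/‖a‖²) D + D²/‖a‖²`, which preserves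
real-rootedness of polynomials of degree at most `d` (Grace/Walsh; `x^{m-2}(x² - 2 m c x/r + m (m-1)/r²)` is real-rooted
for `m ≤ d`). -/
def S_sec : Prop := ∀ f : ℂ → ℂ, Ent f → f 0 ≠ 0 → ∀ d : ℕ, 1 ≤ d →
  (∀ a, f a = 0 → a.im ≠ 0 → (d : ℝ) * a.im ^ 2 ≤ ‖a‖ ^ 2) →
  ∀ X : ℂ, Jf f d X = 0 → X.im = 0

/-! ## the xi function -/

/-- the region containing all zeros: `z² ∈ Par ↔ |Re z| ≤ 1/2` -/
def Par : Set ℂ := {x : ℂ | x.im ^ 2 ≤ 1 / 4 - x.re}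

/-- X0: basic properties of `F`. -/
def S_F : Prop := Ent F ∧ (∀ z, F (z ^ 2) = Xi z) ∧ (∀ x, F x = 0 → x ∈ Par)

/-- X1: `F^(n)(0) > 0` (the coefficients are moments of the positive kernel `Φ`). -/
def S_pos : Prop := ∀ n : ℕ, 0 < (Fn n 0).re ∧ (Fn n 0).im = 0

/-- X2: lower bound for the zeros of `F^(n)`. `∑ 1/a² = r² - γ(n+2)/γ(n) ≤ 2 r²/(2n+3)`, `r = γ(n+1)/γ(n) =
μ(2n+2)/(2(2n+1)μ(2n))`, `μ(2n) μ(2n+4) ≥ μ(2n+2)²`; `r ≤ C (log n)^4/n`; `Re 1/a² > 0` for `a ∈ Par` large (and for the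
zeros of `F^(n)`, which all lie in `Par`, close to the negative axis). Any exponent `> 1` will do, here `5/4`. -/
def S_zb : Prop := ∃ (c : ℝ) (n0 : ℕ), 0 < c ∧ ∀ n : ℕ, n0 ≤ n → ∀ x : ℂ, Fn n x = 0 →
  c * (n : ℝ) ^ (5 / 4 : ℝ) ≤ ‖x‖

/-- XA: the range in the middle (helper1, saddle point). -/
def S_mid : Prop := ∀ ε : ℝ, 0 < ε → ∃ (A : ℝ) (n0 : ℕ), ∀ n : ℕ, n0 ≤ n → ∀ z : ℂ, Fn n (z ^ 2) = 0 →
  |z.re| ≤ 1 / 2 → (n : ℝ) ^ A ≤ |z.im| → |z.im| ≤ Real.exp ((4 - ε) * n) → z.re = 0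

/-- XC: no nonreal zeros in a large disc. Chain argument: from `n` to `n + 1` a nonreal zero `x` of `F^(n+1)` with
`‖x‖ ≤ exp((8-ε)(n+1))` has `‖x‖ ≤ (n+1)^(2A) + 1` by `S_mid`, lies in the Jensen disc of a nonreal zero `y` of `F^(n)`,
`y ∈ Par`, so that `‖y‖ ≤ exp((8-ε) n)`; hence (induction) `|Im y| ≤ B0` and `|Re y| ≤ X0 + B0 (n - n0)`, and
`|Im x| ≤ B0`, `|Re x| ≤ X0 + B0 (n + 1 - n0)`. For large `n` this contradicts `S_zb`. -/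
def S_low : Prop := ∀ ε : ℝ, 0 < ε → ∃ n1 : ℕ, ∀ n : ℕ, n1 ≤ n → ∀ x : ℂ, Fn n x = 0 →
  ‖x‖ ≤ Real.exp ((8 - ε) * n) → x.im = 0

/-- The theorem. -/
def S_fin : Prop := ∀ ε : ℝ, 0 < ε → ∃ C : ℝ, ∀ d n : ℕ, 1 ≤ d → (1 / 8 + ε) * Real.log d + C ≤ n →
  ∀ X : ℂ, Jf (Fn n) d X = 0 → X.im = 0

end Pool.Agent.J4H1.JP
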