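import Pool.Agent.J4H1.JP.Mid
import Pool.Agent.J4H8.JP.Zb
import Pool.Agent.J4H8.JP.Low
import Pool.Agent.J4H6.JP.Fin
import Pool.Agent.J4H6.JP.Sec

set_option autoImplicit false

/-!
# Assembly
-/

namespace Pool.Agent.J4H1.JP

open Complex Set Filter Topology MeasureTheory
open scoped ComplexConjugate
open Pool.Agent.Helper242.KK (Ph FT Ph_upper continuous_Ph Ph_even)

lemma mom_eq (k : ℕ) : mom k = J4H8.JP.Mo k := by
  have hi : Integrable fun t : ℝ => t ^ (2 * k) * Ph t := by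
    have h := int_cosh 1
    have hc := continuous_Ph
    refine Integrable.mono' (h.const_mul ((2 * k).factorial : ℝ)) (by fun_prop) (Eventually.of_forall fun t => ?_)
    rw [norm_mul, Real.norm_eq_abs, Real.norm_eq_abs, abs_of_pos (Helper242.KK.Ph_pos t), one_mul]
    have h1 := (Real.hasSum_cosh t)
    have hev : ∀ i : ℕ, 0 ≤ t ^ (2 * i) := fun i => by rw [pow_mul]; positivity
    have h2 := h1.summable.sum_le_tsum {k} (fun i _ => div_nonneg (hev i) (by positivity))
    rw [h1.tsum_eq, Finset.sum_singleton] at h2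
    rw [div_le_iff₀ (by positivity)] at h2
    have h3 := Helper242.KK.Ph_pos t
    have h4 : |t ^ (2 * k)| = t ^ (2 * k) := abs_of_nonneg (hev k)
    rw [h4]
    calc t ^ (2 * k) * Ph t ≤ (Real.cosh t * (2 * k).factorial) * Ph t := by gcongr
      _ = _ := by ring
  unfold mom J4H8.JP.Mo
  rw [← intervalIntegral.integral_Iic_add_Ioi (b := 0) hi.integrableOn hi.integrableOn]
  have h1 := integral_comp_neg_Ioi (0 : ℝ) (fun t : ℝ => t ^ (2 * k) * Ph t)
  rw [neg_zero] at h1
  rw [← h1]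
  have h2 : ∀ t : ℝ, (-t) ^ (2 * k) * Ph (-t) = t ^ (2 * k) * Ph t := fun t => by
    rw [Ph_even, pow_mul, neg_sq, pow_mul]
  simp_rw [h2]
  rw [← integral_add hi.integrableOn hi.integrableOn]
  refine integral_congr_ae (Eventually.of_forall fun t => ?_)
  simp only [Kr_eq]
  ring

theorem t_momF : J4H8.JP.MomF := fun k => by
  rw [Fn_zero, mom_eq]
  unfold J4H8.JP.ga
  push_cast
  ring

/-- **Theorem.** -/
theorem t_all : S_low ∧ S_fin := by
  have hsum := J4H6.JP.t_sum J4H8.JP.t_had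
  have hsec := J4H6.JP.t_sec J4H8.JP.t_had
  have hpos := J4H8.JP.t_pos t_momF
  have hzb := J4H8.JP.t_zb t_F hsum t_momF
  have hlow := J4H8.JP.t_low t_mid hzb t_F
  exact ⟨hlow, J4H6.JP.t_fin hsec hlow t_F hpos J4H8.JP.t_gl J4H8.JP.t_der⟩

end Pool.Agent.J4H1.JP
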