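import Mathlib

set_option autoImplicit false

/-!
# Entire functions given by power series
-/

namespace Pool.Agent.J4H1.JP

open Complex Filter Topology

lemma summable_norm_of_all {c : ℕ → ℂ} {f : ℂ → ℂ} (h : ∀ x, HasSum (fun k => c k * x ^ k) (f x)) (r : ℝ)
    (hr : 0 ≤ r) : Summable fun k => ‖c k‖ * r ^ k := by
  have h1 := (h r).summable.norm
  refine h1.congr fun k => ?_
  rw [norm_mul, norm_pow, norm_real, Real.norm_eq_abs, abs_of_nonneg hr]

lemma hasFPower {c : ℕ → ℂ} {f : ℂ → ℂ} (h : ∀ x, HasSum (fun k => c k * x ^ k) (f x)) :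
    HasFPowerSeriesOnBall f (FormalMultilinearSeries.ofScalars ℂ c) 0 ⊤ := by
  refine ⟨?_, by simp, fun {y} _ => ?_⟩
  · rw [top_le_iff]
    apply FormalMultilinearSeries.radius_eq_top_of_summable_norm
    intro r
    refine (summable_norm_of_all h r r.2).congr fun k => ?_
    rw [FormalMultilinearSeries.ofScalars_norm]
  · rw [zero_add]
    refine (h y).congr_fun fun k => ?_
    simp [mul_comm]

lemma diff_of_hasSum {c : ℕ → ℂ} {f : ℂ → ℂ} (h : ∀ x, HasSum (fun k => c k * x ^ k) (f x)) :
    Differentiable ℂ f := fun x =>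
  ((hasFPower h).analyticAt_of_mem (by simp)).differentiableAt

lemma iter_of_hasSum {c : ℕ → ℂ} {f : ℂ → ℂ} (h : ∀ x, HasSum (fun k => c k * x ^ k) (f x)) (n : ℕ) :
    iteratedDeriv n f 0 = n.factorial * c n := by
  have h1 : HasFPowerSeriesAt f (FormalMultilinearSeries.ofScalars ℂ c) 0 := ⟨⊤, hasFPower h⟩
  have h2 := (h1.analyticAt).hasFPowerSeriesAt
  have h3 := h1.eq_formalMultilinearSeries h2
  have h4 := congrArg (fun p => FormalMultilinearSeries.coeff p n) h3
  simp only [FormalMultilinearSeries.coeff_ofScalars] at h4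
  rw [h4]
  have : (n.factorial : ℂ) ≠ 0 := by exact_mod_cast n.factorial_ne_zero
  field_simp

lemma iter_iter (f : ℂ → ℂ) (n k : ℕ) : iteratedDeriv k (iteratedDeriv n f) = iteratedDeriv (n + k) f := by
  simp only [iteratedDeriv_eq_iterate]
  rw [add_comm, Function.iterate_add_apply]

lemma diff_iter {f : ℂ → ℂ} (hf : Differentiable ℂ f) (n : ℕ) : Differentiable ℂ (iteratedDeriv n f) := by
  induction n with
  | zero => simpa using hf
  | succ n ih =>
    rw [iteratedDeriv_succ]
    exact ih.deriv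

lemma hasSum_iter {f : ℂ → ℂ} (hf : Differentiable ℂ f) (n : ℕ) (x : ℂ) :
    HasSum (fun k => iteratedDeriv (n + k) f 0 / k.factorial * x ^ k) (iteratedDeriv n f x) := by
  have h := Complex.hasSum_taylorSeries_of_entire (diff_iter hf n) 0 x
  refine h.congr_fun fun k => ?_
  rw [iter_iter, sub_zero, smul_eq_mul, smul_eq_mul]
  ring

end Pool.Agent.J4H1.JP
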