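import Pool.Agent.J4H1.JP.Stm
import Pool.Agent.J4H1.JP.Pow
import Pool.Agent.Helper242.KK.Kernel
import Pool.Agent.H401R2.Rep2

set_option autoImplicit false

/-!
# The function `F(z²) = ξ(1/2 + z)`
-/

namespace Pool.Agent.J4H1.JP

open Complex Filter Topology MeasureTheory
open scoped ComplexConjugate
open Pool.Agent.Helper242.KK

lemma Xi_eq_XiC (w : ℂ) : Xi w = H401R2.XiC (-I * w) := by
  rw [H401R2.XiC_eq_mellin, H401R2.mellin_gam]
  have e : (1 / 4 + I * (-I * w) / 2 : ℂ) = 1 / 4 + w / 2 := by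
    have : I * (-I * w) = w := by rw [← mul_assoc, mul_neg, I_mul_I]; ring
    rw [this]
  rw [e]
  have e2 : 2 * (1 / 4 + w / 2 : ℂ) = 1 / 2 + w := by ring
  rw [e2]
  unfold Xi
  ring

lemma Kr_eq (u : ℝ) : H401R2.Kr u = 2 * Ph u := by
  unfold H401R2.Kr Ph
  ring

lemma Xi_eq_FT (w : ℂ) : Xi w = FT Ph (-I * w) := by
  have h := H401R2.two_XiC (-I * w)
  rw [← Xi_eq_XiC] at h
  have h2 : (∫ u : ℝ, cexp (I * (-I * w) * u) * (H401R2.Kr u : ℂ)) = 2 * FT Ph (-I * w) := by
    unfold FT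
    rw [← integral_const_mul]
    refine integral_congr_ae (Eventually.of_forall fun u => ?_)
    simp only [Kr_eq]
    push_cast
    ring
  rw [h2] at h
  exact mul_left_cancel₀ two_ne_zero h

lemma diff_Xi : Differentiable ℂ Xi := by
  have : Xi = fun w => H401R2.XiC (-I * w) := funext Xi_eq_XiC
  rw [this]
  exact H401R2.differentiable_XiC.comp (by fun_prop)

lemma Xi_neg (w : ℂ) : Xi (-w) = Xi w := by
  rw [Xi_eq_FT, Xi_eq_FT, mul_neg, FT_neg Ph_even]

/-- integrability against exponentials -/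
lemma int_exp (M : ℝ) : Integrable fun t : ℝ => Ph t * Real.exp (M * t) := by
  obtain ⟨A, -, hA⟩ := Ph_upper
  have h := (integrable_FT continuous_Ph hA (-I * M)).re
  refine h.congr (Eventually.of_forall fun t => ?_)
  have e : I * (-I * M) * (t : ℂ) = ((M * t : ℝ) : ℂ) := by
    have : I * (-I * (M : ℂ)) = M := by rw [← mul_assoc, mul_neg, I_mul_I]; ring
    rw [this]; push_cast; ring
  simp only [e]
  rw [← ofReal_exp, ← ofReal_mul]
  rfl

lemma int_cosh (M : ℝ) : Integrable fun t : ℝ => Ph t * Real.cosh (M * t) := by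
  have h := ((int_exp M).add (int_exp (-M))).div_const 2
  refine h.congr (Eventually.of_forall fun t => ?_)
  simp only [Pi.add_apply, Real.cosh_eq]
  rw [show -M * t = -(M * t) by ring]
  ring

/-- the moments of the kernel -/
noncomputable def mom (k : ℕ) : ℝ := ∫ t : ℝ, t ^ (2 * k) * Ph t

lemma hasSum_Xi (w : ℂ) : HasSum (fun k : ℕ => ((mom k / (2 * k).factorial : ℝ) : ℂ) * w ^ (2 * k)) (Xi w) := by
  have hcosh : Xi w = ∫ t : ℝ, (Ph t : ℂ) * Complex.cosh (w * t) := by
    have h1 : Xi w = (Xi w + Xi (-w)) / 2 := by rw [Xi_neg]; ring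
    obtain ⟨A, -, hA⟩ := Ph_upper
    have hi := fun z => integrable_FT continuous_Ph hA z
    rw [h1, Xi_eq_FT, Xi_eq_FT]
    unfold FT
    rw [← integral_add (hi _) (hi _), ← integral_div]
    refine integral_congr_ae (Eventually.of_forall fun t => ?_)
    simp only [Complex.cosh]
    have e1 : I * (-I * w) * (t : ℂ) = w * t := by
      have : I * (-I * w) = w := by rw [← mul_assoc, mul_neg, I_mul_I]; ring
      rw [this]
    have e2 : I * (-I * -w) * (t : ℂ) = -(w * t) := by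
      have : I * (-I * -w) = -w := by
        have h5 : I * (-I * -w) = I * I * w := by ring
        rw [h5, I_mul_I]; ring
      rw [this]; ring
    rw [e1, e2]
    ring
  rw [hcosh]
  have h := hasSum_integral_of_dominated_convergence (μ := (volume : Measure ℝ))
    (F := fun (k : ℕ) (t : ℝ) => (Ph t : ℂ) * ((w * t) ^ (2 * k) / ((2 * k).factorial : ℂ)))
    (f := fun t : ℝ => (Ph t : ℂ) * Complex.cosh (w * t))
    (fun k t => Ph t * ((‖w‖ * t) ^ (2 * k) / ((2 * k).factorial : ℝ))) ?_ ?_ ?_ ?_ ?_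
  · refine h.congr_fun fun k => ?_
    have e : ∀ t : ℝ, (Ph t : ℂ) * ((w * t) ^ (2 * k) / ((2 * k).factorial : ℂ)) =
        (w ^ (2 * k) / ((2 * k).factorial : ℂ)) * ((t ^ (2 * k) * Ph t : ℝ) : ℂ) := fun t => by
      push_cast
      ring
    simp_rw [e]
    rw [integral_const_mul]
    have e2 : ∫ t : ℝ, ((t ^ (2 * k) * Ph t : ℝ) : ℂ) = ((mom k : ℝ) : ℂ) := integral_ofReal
    rw [e2]
    push_cast
    ring
  · intro k
    refine Continuous.aestronglyMeasurable ?_
    have := continuous_Ph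
    fun_prop
  · intro k
    refine Eventually.of_forall fun t => ?_
    rw [norm_mul, norm_div, norm_pow, norm_mul, norm_real, norm_real, Complex.norm_natCast,
      Real.norm_eq_abs, Real.norm_eq_abs, abs_of_pos (Ph_pos t)]
    have : (‖w‖ * |t|) ^ (2 * k) = (‖w‖ * t) ^ (2 * k) := by
      rw [pow_mul, pow_mul, mul_pow ‖w‖ |t| 2, mul_pow ‖w‖ t 2, sq_abs]
    rw [this]
  · refine Eventually.of_forall fun t => ?_
    exact (Real.hasSum_cosh (‖w‖ * t)).summable.mul_left _
  · refine (int_cosh ‖w‖).congr (Eventually.of_forall fun t => ?_)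
    exact ((Real.hasSum_cosh (‖w‖ * t)).mul_left (Ph t)).tsum_eq.symm
  · refine Eventually.of_forall fun t => ?_
    exact (Complex.hasSum_cosh (w * t)).mul_left _

lemma sqrt_sq (x : ℂ) : (x ^ (1 / 2 : ℂ)) ^ 2 = x := by
  have h := Complex.cpow_nat_inv_pow x two_ne_zero
  have e : (1 / 2 : ℂ) = ((2 : ℕ) : ℂ)⁻¹ := by norm_num
  rw [e, h]

lemma hasSum_F (x : ℂ) : HasSum (fun k : ℕ => ((mom k / (2 * k).factorial : ℝ) : ℂ) * x ^ k) (F x) := by
  have h := hasSum_Xi (x ^ (1 / 2 : ℂ))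
  refine h.congr_fun fun k => ?_
  rw [pow_mul, sqrt_sq]

lemma F_sq (z : ℂ) : F (z ^ 2) = Xi z := by
  refine (hasSum_F (z ^ 2)).unique ?_
  refine (hasSum_Xi z).congr_fun fun k => ?_
  rw [pow_mul]

lemma diff_F : Differentiable ℂ F := diff_of_hasSum hasSum_F

lemma Fn_zero (n : ℕ) : Fn n 0 = ((n.factorial * (mom n / (2 * n).factorial) : ℝ) : ℂ) := by
  unfold Fn
  rw [iter_of_hasSum hasSum_F n]
  push_cast
  ring

end Pool.Agent.J4H1.JP
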