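import Pool.Agent.J4H1.JP.F0

set_option autoImplicit false

/-!
# Growth and zeros of `F`
-/

namespace Pool.Agent.J4H1.JP

open Complex Filter Topology MeasureTheory
open scoped ComplexConjugate
open Pool.Agent.Helper242.KK

lemma norm_sqrt (x : ℂ) : ‖x ^ (1 / 2 : ℂ)‖ ^ 2 = ‖x‖ := by
  rw [← norm_pow, sqrt_sq]

lemma F_gro : ∃ C : ℝ, 0 ≤ C ∧ ∀ z : ℂ, ‖F z‖ ≤ Real.exp (C * (1 + ‖z‖) ^ (3 / 4 : ℝ)) := by
  obtain ⟨A, -, hA⟩ := Ph_upper
  obtain ⟨C, hC, h⟩ := FT_upper continuous_Ph hA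
  refine ⟨2 + 2 * C, by positivity, fun x => ?_⟩
  have h1 := h (-I * (x ^ (1 / 2 : ℂ)))
  rw [← Xi_eq_FT] at h1
  refine h1.trans (Real.exp_le_exp.mpr ?_)
  set w := x ^ (1 / 2 : ℂ) with hw
  set Y := |(-I * w).im| with hY
  have hYw : Y ≤ ‖w‖ := by
    rw [hY]
    refine (Complex.abs_im_le_norm _).trans ?_
    rw [norm_mul, norm_neg, norm_I, one_mul]
  have hY0 : 0 ≤ Y := abs_nonneg _
  set R : ℝ := (1 + ‖x‖) ^ (1 / 2 : ℝ) with hR
  have hx0 := norm_nonneg x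
  have hR2 : R ^ 2 = 1 + ‖x‖ := by
    rw [hR, ← Real.rpow_natCast, ← Real.rpow_mul (by positivity)]
    norm_num
  have hR0 : 0 ≤ R := by positivity
  have hR1 : 1 ≤ R := by nlinarith
  have hwR : ‖w‖ ≤ R := by
    have h2 := norm_sqrt x
    rw [← hw] at h2
    have := norm_nonneg w
    nlinarith
  have hYR : Y ≤ R := hYw.trans hwR
  set T : ℝ := (1 + ‖x‖) ^ (3 / 4 : ℝ) with hT
  have hTR : T = R * R ^ (1 / 2 : ℝ) := by
    rw [hT, hR, ← Real.rpow_mul (by positivity), ← Real.rpow_add (by positivity)]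
    norm_num
  have hq1 : 1 ≤ R ^ (1 / 2 : ℝ) := Real.one_le_rpow hR1 (by norm_num)
  have hRT : R ≤ T := by rw [hTR]; nlinarith
  have hlog : Real.log (2 + Y) ≤ 4 * R ^ (1 / 2 : ℝ) := by
    have h3 : Real.log (2 + Y) ≤ Real.log (3 * R) := Real.log_le_log (by linarith) (by linarith)
    have h4 := Real.log_le_rpow_div (x := 3 * R) (ε := 1 / 2) (by linarith) (by norm_num)
    have h5 : (3 * R) ^ (1 / 2 : ℝ) = 3 ^ (1 / 2 : ℝ) * R ^ (1 / 2 : ℝ) :=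
      Real.mul_rpow (by norm_num) hR0
    have h6 : (3 : ℝ) ^ (1 / 2 : ℝ) ≤ 2 := by
      rw [← Real.sqrt_eq_rpow]
      apply Real.sqrt_le_iff.mpr
      norm_num
    rw [h5] at h4
    have h7 : (3 : ℝ) ^ (1 / 2 : ℝ) * R ^ (1 / 2 : ℝ) ≤ 2 * R ^ (1 / 2 : ℝ) := by gcongr
    linarith
  have h8 : Y / 2 * Real.log (2 + Y) ≤ R / 2 * (4 * R ^ (1 / 2 : ℝ)) := by
    have : 0 ≤ Real.log (2 + Y) := Real.log_nonneg (by linarith)
    gcongr
  have h9 : R / 2 * (4 * R ^ (1 / 2 : ℝ)) = 2 * T := by rw [hTR]; ring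
  have h10 : C * (1 + Y) ≤ C * (2 * T) := by
    gcongr
    linarith
  linarith

lemma Xi_ne {z : ℂ} (hz : 1 / 2 ≤ |z.re|) : Xi z ≠ 0 := by
  have key : ∀ z : ℂ, 1 / 2 ≤ z.re → Xi z ≠ 0 := by
    intro z hz
    by_cases h1 : 1 / 2 + z = 1
    · have : z = 1 / 2 := by linear_combination h1
      rw [this]
      unfold Xi
      norm_num
    · have e : (1 / 2 + z : ℂ) = 1 / 2 + I * (-I * z) := by
        have h5 : I * (-I * z) = -(I * I) * z := by ring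
        rw [h5, I_mul_I]; ring
      have hre : 1 ≤ (1 / 2 + z : ℂ).re := by
        rw [add_re]; norm_num; linarith
      rw [Xi_eq_XiC, H401R2.XiC_eq e (by linarith) h1]
      have hs0 : (1 / 2 + z : ℂ) ≠ 0 := by
        intro h; rw [h] at hre; simp at hre; linarith
      have h2 : (Real.pi : ℂ) ≠ 0 := by exact_mod_cast Real.pi_ne_zero
      have h3 : (Real.pi : ℂ) ^ (-(1 / 2 + z) / 2) ≠ 0 := by
        rw [Ne, cpow_eq_zero_iff]
        tauto
      have h4 : Gamma ((1 / 2 + z) / 2) ≠ 0 := by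
        apply Gamma_ne_zero_of_re_pos
        have e2 : ((1 / 2 + z) / 2 : ℂ) = (1 / 2 + z) / ((2 : ℝ) : ℂ) := by norm_num
        rw [e2, Complex.div_ofReal_re]
        linarith
      have h5 : riemannZeta (1 / 2 + z) ≠ 0 := riemannZeta_ne_zero_of_one_le_re hre
      have h6 : (1 / 2 + z : ℂ) - 1 ≠ 0 := sub_ne_zero.mpr h1
      refine mul_ne_zero (mul_ne_zero (mul_ne_zero (div_ne_zero (mul_ne_zero hs0 h6) two_ne_zero) h3) h4) h5
  rcases le_total 0 z.re with h | h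
  · rw [abs_of_nonneg h] at hz
    exact key z hz
  · rw [abs_of_nonpos h] at hz
    rw [← Xi_neg]
    exact key (-z) (by rw [neg_re]; exact hz)

lemma mem_Par_sq {z : ℂ} (h : |z.re| ≤ 1 / 2) : z ^ 2 ∈ Par := by
  unfold Par
  rw [Set.mem_ofPred_eq, sq z, mul_re, mul_im]
  have h2 : z.re ^ 2 ≤ 1 / 4 := by
    rw [← sq_abs]
    nlinarith [abs_nonneg z.re]
  nlinarith [sq_nonneg z.im, mul_nonneg (sub_nonneg.mpr h2) (sq_nonneg z.im)]

lemma F_zero {x : ℂ} (h : F x = 0) : x ∈ Par := by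
  have h1 : Xi (x ^ (1 / 2 : ℂ)) = 0 := h
  have h2 : |(x ^ (1 / 2 : ℂ)).re| ≤ 1 / 2 := by
    by_contra hc
    push Not at hc
    exact Xi_ne hc.le h1
  rw [← sqrt_sq x]
  exact mem_Par_sq h2

lemma F_sym (x : ℂ) : F (conj x) = conj (F x) := by
  have h1 := hasSum_F (conj x)
  have h2 : HasSum (fun k : ℕ => conj (((mom k / (2 * k).factorial : ℝ) : ℂ) * x ^ k)) (conj (F x)) :=
    (Complex.hasSum_conj'.mpr (by simpa using hasSum_F x))
  refine h1.unique (h2.congr_fun fun k => ?_)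
  rw [map_mul, map_pow, conj_ofReal]

theorem t_F : S_F := ⟨⟨diff_F, F_sym, F_gro⟩, F_sq, fun _ h => F_zero h⟩

end Pool.Agent.J4H1.JP
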