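import Pool.Agent.J4H1.JP.Sq
import Pool.Agent.H353R7.G4

set_option autoImplicit false

/-!
# The local structure for `x ↦ F x`, `F(z²) = Λ(1/2 + z)`, near `x = -t²`
-/

namespace Pool.Agent.J4H1.JP

open Complex Set Filter Topology MeasureTheory
open scoped ComplexConjugate
open H353.E H353.F

variable {C B σ : ℝ} {Sg : ℝ → ℝ} {Λ γ D F : ℂ → ℂ}

/-- the derivative of `F` from the one of `Λ` -/
lemma deriv_of_sq (hF : Differentiable ℂ F) (hFL : ∀ z, F (z ^ 2) = Λ (1 / 2 + z)) {z L' : ℂ} (hz : z ≠ 0)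
    (hL : HasDerivAt Λ L' (1 / 2 + z)) : deriv F (z ^ 2) = L' / (2 * z) := by
  have h1 : HasDerivAt (fun z : ℂ => z ^ 2) (2 * z) z := by
    simpa using hasDerivAt_pow 2 z
  have h2 := (hF (z ^ 2)).hasDerivAt.comp z h1
  have h3 : HasDerivAt (fun z : ℂ => (1 / 2 : ℂ) + z) 1 z := (hasDerivAt_id z).const_add _
  have h4 := HasDerivAt.comp z hL h3
  have h5 : (fun z : ℂ => F (z ^ 2)) = fun z => Λ (1 / 2 + z) := funext hFL
  have h6 : deriv F (z ^ 2) * (2 * z) = L' * 1 := by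
    have e1 := h2.deriv
    have e2 := h4.deriv
    have : (F ∘ fun z : ℂ => z ^ 2) = (Λ ∘ fun z : ℂ => (1 / 2 : ℂ) + z) := h5
    rw [← e1, ← e2, this]
  rw [eq_div_iff (by simpa using hz), h6, mul_one]

/-- the parameters -/
structure Cfg (C B σ : ℝ) (D : ℂ → ℂ) (δ κ η t w ℓ K n : ℝ) : Prop where
  hδ : 0 < δ
  hδ' : δ ≤ 1 / 2
  hκ : 0 < κ
  hκ' : κ ≤ δ / 1000000
  hη : 0 < η
  hη1 : η ≤ 1 / 8
  hC : 1 ≤ C
  hB : 1 ≤ B
  hσ : 1 ≤ σ
  hσ2 : σ ≤ 2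
  hw : σ - 1 / 2 + 2 * η * w ≤ w * (1 - δ)
  hn : 1000000000000 ≤ n
  hnδ : 10000 / δ ^ 2 ≤ n
  hwℓ : w * ℓ = n
  ht : 0 < t
  htw : 1000 * w ≤ κ * η * t
  hK : 0 ≤ K
  hD : ∀ s : ℂ, 1 ≤ s.re → ‖s - I * t‖ ≤ t / 2 → ‖D s - ℓ‖ ≤ K
  h1 : 4 * (K + 2 * B ^ 2 / η) ≤ κ * ℓ
  h2 : 2 * (16 * C + 32 * B ^ 2 / η ^ 2) ≤ κ * ℓ
  h3 : 64 * K ≤ κ * ℓ
  h4 : B ≤ Real.exp (κ * n / 4)

namespace Cfg

variable {δ κ η t w ℓ K n : ℝ}

lemma n0 (c : Cfg C B σ D δ κ η t w ℓ K n) : 0 < n := by linarith [c.hn]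

lemma kn (c : Cfg C B σ D δ κ η t w ℓ K n) : 0 < κ * n := mul_pos c.hκ c.n0

lemma wp (c : Cfg C B σ D δ κ η t w ℓ K n) : 0 < w := by
  have h1 := c.hw
  have h2 := c.hσ
  have h3 := c.hη
  have h4 := c.hδ'
  have h5 := c.hη1
  by_contra hc
  push Not at hc
  have : w * (1 - δ - 2 * η) ≤ 0 := mul_nonpos_of_nonpos_of_nonneg hc (by linarith)
  linarith

lemma w0 (c : Cfg C B σ D δ κ η t w ℓ K n) : 1 / 2 < w := by
  have h1 := c.hw
  have h2 := c.hσ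
  have h3 := c.wp
  have : 0 < η * w := mul_pos c.hη h3
  have : w * (1 - δ) ≤ w * 1 := by
    have := c.hδ
    gcongr
    linarith
  linarith

lemma l0 (c : Cfg C B σ D δ κ η t w ℓ K n) : 0 < ℓ := by
  have h1 := c.hwℓ
  have h2 := c.n0
  have h3 := c.wp
  by_contra hc
  push Not at hc
  have : w * ℓ ≤ 0 := by nlinarith
  linarith

lemma kt (c : Cfg C B σ D δ κ η t w ℓ K n) : 1000 * w ≤ κ * t := by
  have h1 := c.htw
  have h2 := c.hη1
  have h3 := c.hκ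
  have h4 := c.ht
  have : κ * η * t ≤ κ * 1 * t := by
    gcongr
    linarith
  linarith

lemma ksm (c : Cfg C B σ D δ κ η t w ℓ K n) : κ ≤ 1 / 2000000 := by
  have h1 := c.hκ'
  have h2 := c.hδ'
  linarith

lemma et (c : Cfg C B σ D δ κ η t w ℓ K n) : 1000 * w ≤ η * t := by
  have h1 := c.htw
  have h2 := c.hη
  have h3 := c.ksm
  have h4 := c.ht
  have : κ * η * t ≤ 1 * η * t := by
    gcongr
    linarith
  linarith

lemma tw2 (c : Cfg C B σ D δ κ η t w ℓ K n) : 1000000 * w ≤ t := by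
  have h1 := c.kt
  have h2 := c.ht
  have h3 := c.ksm
  have : κ * t ≤ 1 / 2000000 * t := by gcongr
  linarith

lemma sm (c : Cfg C B σ D δ κ η t w ℓ K n) : 10 * w / t ≤ 1 / 100 := by
  rw [div_le_iff₀ c.ht]
  linarith [c.tw2, c.wp]

lemma mm (c : Cfg C B σ D δ κ η t w ℓ K n) : 100 * w ^ 2 / t ≤ w / 1000 := by
  have h := c.tw2
  have h2 := c.wp
  rw [div_le_iff₀ c.ht]
  nlinarith

lemma me (c : Cfg C B σ D δ κ η t w ℓ K n) : 100 * w ^ 2 / t ≤ η * w / 10 := by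
  have h := c.et
  have h2 := c.wp
  rw [div_le_iff₀ c.ht]
  nlinarith

lemma mkk (c : Cfg C B σ D δ κ η t w ℓ K n) : 100 * w ^ 2 / t ≤ κ * w / 10 := by
  have h := c.kt
  have h2 := c.wp
  rw [div_le_iff₀ c.ht]
  nlinarith

lemma sw (c : Cfg C B σ D δ κ η t w ℓ K n) : σ ≤ 1 / 2 + w := by
  have h1 := c.hw
  have h3 := c.wp
  have : 0 < η * w := mul_pos c.hη h3
  have : w * (1 - δ) ≤ w * 1 := by
    have := c.hδ
    gcongr
    linarith
  linarith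

lemma near (c : Cfg C B σ D δ κ η t w ℓ K n) {u : ℂ} (hu : ‖u‖ ≤ 5) :
    ‖zz w t u - (I * t + w * u)‖ ≤ 100 * w ^ 2 / t := zz_near c.wp c.ht hu c.sm

lemma re (c : Cfg C B σ D δ κ η t w ℓ K n) {u : ℂ} (hu : ‖u‖ ≤ 5) :
    |(zz w t u).re - w * u.re| ≤ 100 * w ^ 2 / t := by
  have h := (Complex.abs_re_le_norm _).trans (c.near hu)
  rw [sub_re, add_re, I_mul_re, ofReal_im, neg_zero, zero_add, re_ofReal_mul] at h
  exact h

lemma im (c : Cfg C B σ D δ κ η t w ℓ K n) {u : ℂ} (hu : ‖u‖ ≤ 5) :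
    |(zz w t u).im - (t + w * u.im)| ≤ 100 * w ^ 2 / t := by
  have h := (Complex.abs_im_le_norm _).trans (c.near hu)
  rw [sub_im, add_im, I_mul_im, ofReal_re, im_ofReal_mul] at h
  exact h

lemma sre (w t : ℝ) (u : ℂ) : (1 / 2 + zz w t u).re = 1 / 2 + (zz w t u).re := by
  rw [add_re]; norm_num

lemma sim (w t : ℝ) (u : ℂ) : (1 / 2 + zz w t u).im = (zz w t u).im := by
  rw [add_im]; norm_num

lemma dist (c : Cfg C B σ D δ κ η t w ℓ K n) {u : ℂ} (hu : ‖u‖ ≤ 5) :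
    ‖(1 / 2 + zz w t u) - I * t‖ ≤ 7 * w := by
  have h3 := c.wp
  have h4 := c.w0
  have e : (1 / 2 + zz w t u) - I * t = 1 / 2 + w * u + (zz w t u - (I * t + w * u)) := by ring
  rw [e]
  refine (norm_add_le _ _).trans ?_
  have h5 : ‖(1 / 2 + w * u : ℂ)‖ ≤ 1 / 2 + w * 5 := by
    refine (norm_add_le _ _).trans ?_
    rw [norm_mul, norm_real, Real.norm_eq_abs, abs_of_pos h3]
    have : ‖(1 / 2 : ℂ)‖ = 1 / 2 := by norm_num
    rw [this]
    gcongr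
  have h6 := c.near hu
  have h7 := c.mm
  linarith

lemma sd (c : Cfg C B σ D δ κ η t w ℓ K n) {v : ℝ} (hv : |v| ≤ 3 * w) :
    ‖((σ : ℂ) + ((t + v : ℝ) : ℂ) * I) - I * t‖ ≤ 7 * w := by
  have e : ((σ : ℂ) + ((t + v : ℝ) : ℂ) * I) - I * t = (σ : ℂ) + (v : ℂ) * I := by push_cast; ring
  have h1 := c.sw
  have h2 := c.hσ
  have h3 := c.w0
  rw [e]
  refine (norm_add_le _ _).trans ?_
  rw [norm_mul, norm_I, mul_one, norm_real, norm_real, Real.norm_eq_abs, Real.norm_eq_abs,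
    abs_of_nonneg (by linarith)]
  linarith

lemma Dl (c : Cfg C B σ D δ κ η t w ℓ K n) {s : ℂ} (hs1 : 1 ≤ s.re) (hs2 : ‖s - I * t‖ ≤ 7 * w) :
    ‖D s - ℓ‖ ≤ K := by
  have h1 := c.tw2
  have h2 := c.wp
  exact c.hD s hs1 (by linarith)

/-- moving the gamma factor -/
lemma move (c : Cfg C B σ D δ κ η t w ℓ K n) (gp : GP C Sg γ D) {z1 z2 : ℂ} (a1 : 1 ≤ z1.re)
    (a2 : 1 ≤ z2.re) (a3 : ‖z1 - I * t‖ ≤ 7 * w) (a4 : ‖z2 - I * t‖ ≤ 7 * w) :
    ‖γ z2‖ ≤ ‖γ z1‖ * Real.exp (ℓ * (z2.re - z1.re) + K * (14 * w)) := by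
  have h5 := gam_move gp (s := z1) (v := z2 - z1) (ℓ := ℓ) (K := K) a1
    (by rwa [add_sub_cancel]) (fun τ hτ => by
      have hconv : z1 + τ * (z2 - z1) = (1 - τ) • z1 + τ • z2 := by
        simp only [Complex.real_smul]
        push_cast
        ring
      refine c.Dl ?_ ?_
      · rw [hconv, add_re, Complex.real_smul, Complex.real_smul, Complex.re_ofReal_mul,
          Complex.re_ofReal_mul]
        nlinarith [hτ.1, hτ.2]
      · have e : z1 + τ * (z2 - z1) - I * t = (1 - τ) • (z1 - I * t) + τ • (z2 - I * t) := by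
          simp only [Complex.real_smul]
          push_cast
          ring
        rw [e]
        refine (norm_add_le _ _).trans ?_
        rw [norm_smul, norm_smul, Real.norm_eq_abs, Real.norm_eq_abs, abs_of_nonneg hτ.1,
          abs_of_nonneg (by linarith [hτ.2])]
        nlinarith [hτ.1, hτ.2])
  rw [add_sub_cancel] at h5
  refine h5.trans ?_
  refine mul_le_mul_of_nonneg_left (Real.exp_le_exp.mpr ?_) (norm_nonneg _)
  rw [sub_re]
  have h6 : ‖z2 - z1‖ ≤ 14 * w := by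
    have e : z2 - z1 = (z2 - I * t) - (z1 - I * t) := by ring
    rw [e]
    refine (norm_sub_le _ _).trans ?_
    linarith
  have : K * ‖z2 - z1‖ ≤ K * (14 * w) := by
    have := c.hK
    gcongr
  linarith

lemma Kw (c : Cfg C B σ D δ κ η t w ℓ K n) : K * (14 * w) ≤ κ * n / 4 := by
  have h1 := c.hwℓ
  have h2 := c.h3
  have h3 := c.wp
  have h5 := c.hK
  rw [← h1]
  have h6 : w * (64 * K) ≤ w * (κ * ℓ) := by gcongr
  have h7 : 0 ≤ K * w := by positivity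
  linarith

lemma lm (c : Cfg C B σ D δ κ η t w ℓ K n) : ℓ * (100 * w ^ 2 / t) ≤ κ * n / 10 := by
  have h1 := c.mkk
  have h2 := c.l0
  calc ℓ * (100 * w ^ 2 / t) ≤ ℓ * (κ * w / 10) := by gcongr
    _ = κ * (w * ℓ) / 10 := by ring
    _ = κ * n / 10 := by rw [c.hwℓ]

lemma nu {u : ℂ} (hu1 : |u.re| ≤ 4) (hu2 : |u.im| ≤ 2) : ‖u‖ ≤ 5 := by
  rw [Complex.norm_eq_sqrt_sq_add_sq]
  apply Real.sqrt_le_iff.mpr
  refine ⟨by norm_num, ?_⟩
  rw [← sq_abs u.re, ← sq_abs u.im]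
  nlinarith [abs_nonneg u.re, abs_nonneg u.im]

/-- the region -/
lemma reg (c : Cfg C B σ D δ κ η t w ℓ K n) {u : ℂ} (hu1 : 1 - δ ≤ u.re) (hu2 : u.re ≤ 2 + 2)
    (hu3 : |u.im| ≤ 2) : ‖u‖ ≤ 5 ∧ w / 4 ≤ (1 / 2 + zz w t u).re ∧
      σ + η * w ≤ (1 / 2 + zz w t u).re ∧ 1 ≤ (1 / 2 + zz w t u).re ∧ σ + η / 2 ≤ (1 / 2 + zz w t u).re := by
  have hu5 : ‖u‖ ≤ 5 := nu (by rw [abs_le]; constructor <;> linarith [c.hδ']) hu3
  have hr0 := abs_le.mp (c.re hu5)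
  have hw := c.wp
  have hw0 := c.w0
  have hδ' := c.hδ'
  have h8 : w * (1 - δ) ≤ w * u.re := by gcongr
  have h9 : 0 < η * w := mul_pos c.hη hw
  have h10 := c.hw
  have h11 := c.me
  have h12 : w * (1 / 2) ≤ w * (1 - δ) := by gcongr; linarith
  have h13 := c.mm
  have h14 : η / 2 ≤ η * w := by
    have := c.hη
    nlinarith
  rw [sre]
  refine ⟨hu5, ?_, ?_, ?_, ?_⟩
  · linarith
  · linarith
  · linarith [c.hσ]
  · linarith

/-- the constant in the growth bounds -/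
noncomputable def GG (γ : ℂ → ℂ) (σ t ℓ : ℝ) : ℝ := ‖γ (σ + t * I)‖ * Real.exp (-(ℓ * (σ - 1 / 2)))

lemma st (σ v : ℝ) : ((σ : ℂ) + ((v : ℝ) : ℂ) * I : ℂ).re = σ := by simp

lemma GG_eq (γ : ℂ → ℂ) (σ t ℓ : ℝ) : ‖γ (σ + t * I)‖ = GG γ σ t ℓ * Real.exp (ℓ * (σ - 1 / 2)) := by
  rw [GG, mul_assoc, ← Real.exp_add]
  simp

lemma GG_pos (gp : GP C Sg γ D) (hσ : 1 ≤ σ) (t ℓ : ℝ) : 0 < GG γ σ t ℓ := by
  have hG0 : 0 < ‖γ (σ + t * I)‖ := norm_pos_iff.mpr (gp.ne _ (by rw [st]; exact hσ))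
  unfold GG
  positivity

lemma sd0 (c : Cfg C B σ D δ κ η t w ℓ K n) : ‖((σ : ℂ) + t * I) - I * t‖ ≤ 7 * w := by
  have := c.sd (v := 0) (by rw [abs_zero]; linarith [c.wp])
  rwa [add_zero] at this

/-- upper bound -/
lemma up (c : Cfg C B σ D δ κ η t w ℓ K n) (S : Sharp C B σ Sg Λ γ D) {u : ℂ} (hu0 : 0 ≤ u.re)
    (hu1 : u.re ≤ 2 + 2) (hu2 : |u.im| ≤ 2) :
    ‖Λ (1 / 2 + zz w t u)‖ ≤ GG γ σ t ℓ * Real.exp (n * max |u.re| (1 - δ) + κ * n) := by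
  have hu5 : ‖u‖ ≤ 5 := nu (by rw [abs_of_nonneg hu0]; linarith) hu2
  have hmax1 : u.re ≤ max |u.re| (1 - δ) := (le_abs_self _).trans (le_max_left _ _)
  have hmax2 : 1 - δ ≤ max |u.re| (1 - δ) := le_max_right _ _
  have hr0 := abs_le.mp (c.re hu5)
  have hn0 := c.n0
  have hkn := c.kn
  have hl0 := c.l0
  have hGpos := GG_pos S.gp c.hσ t ℓ
  have hKw := c.Kw
  have hlm := c.lm
  have hGe := GG_eq γ σ t ℓ
  have hwℓ := c.hwℓ
  set G := GG γ σ t ℓ with hG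
  set M := max |u.re| (1 - δ) with hM
  rcases le_total σ (1 / 2 + (zz w t u).re) with h | h
  · have h5 := S.hi (1 / 2 + zz w t u) (by rw [sre]; exact h)
    have h6 := c.move S.gp (z1 := σ + t * I) (z2 := 1 / 2 + zz w t u) (by rw [st]; exact c.hσ)
      (by rw [sre]; linarith [c.hσ]) c.sd0 (c.dist hu5)
    rw [sre, st, hGe] at h6
    have h7 : ℓ * (1 / 2 + (zz w t u).re - σ) ≤ -(ℓ * (σ - 1 / 2)) + n * M + κ * n / 4 := by
      have h8 : ℓ * (zz w t u).re ≤ ℓ * (w * u.re + 100 * w ^ 2 / t) := by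
        gcongr
        linarith
      have h9 : ℓ * (w * u.re) ≤ n * M := by
        calc ℓ * (w * u.re) = (w * ℓ) * u.re := by ring
          _ ≤ n * M := by rw [hwℓ]; gcongr
      have e : ℓ * (1 / 2 + (zz w t u).re - σ) = ℓ * (zz w t u).re - ℓ * (σ - 1 / 2) := by ring
      have e2 : ℓ * (w * u.re + 100 * w ^ 2 / t) = ℓ * (w * u.re) + ℓ * (100 * w ^ 2 / t) := by ring
      rw [e]
      rw [e2] at h8
      linarith
    have h10 : ℓ * (1 / 2 + (zz w t u).re - σ) + K * (14 * w) ≤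
      -(ℓ * (σ - 1 / 2)) + n * M + κ * n / 2 := by linarith
    have h11 : ‖γ (1 / 2 + zz w t u)‖ ≤ G * Real.exp (n * M + κ * n / 2) := by
      refine h6.trans ?_
      rw [mul_assoc, ← Real.exp_add]
      refine mul_le_mul_of_nonneg_left (Real.exp_le_exp.mpr ?_) hGpos.le
      linarith
    calc ‖Λ (1 / 2 + zz w t u)‖ ≤ B * ‖γ (1 / 2 + zz w t u)‖ := h5
      _ ≤ Real.exp (κ * n / 4) * (G * Real.exp (n * M + κ * n / 2)) :=
          mul_le_mul c.h4 h11 (norm_nonneg _) (Real.exp_pos _).le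
      _ = G * Real.exp (κ * n / 4 + (n * M + κ * n / 2)) := by
          rw [Real.exp_add (κ * n / 4)]
          ring
      _ ≤ G * Real.exp (n * M + κ * n) := by
          refine mul_le_mul_of_nonneg_left (Real.exp_le_exp.mpr ?_) hGpos.le
          linarith
  · have hz0 := zz_re_nonneg c.wp c.ht hu5 c.sm hu0
    have h5 := S.strip (1 / 2 + zz w t u) (by rw [sre]; linarith) (by rw [sre]; exact h)
    rw [sim] at h5
    have hi0 := abs_le.mp (c.im hu5)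
    have hvd : |(zz w t u).im - t| ≤ 3 * w := by
      have h8 := abs_le.mp hu2
      have h9 := c.mm
      have h10 := c.wp
      have h11 : w * u.im ≤ w * 2 := by gcongr; exact h8.2
      have h12 : w * (-2) ≤ w * u.im := by gcongr; exact h8.1
      rw [abs_le]
      constructor <;> linarith
    have e0 : (zz w t u).im = t + ((zz w t u).im - t) := by ring
    rw [e0] at h5
    have h6 := c.move S.gp (z1 := σ + t * I) (z2 := σ + ((t + ((zz w t u).im - t) : ℝ) : ℂ) * I)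
      (by rw [st]; exact c.hσ) (by rw [st]; exact c.hσ) c.sd0 (c.sd hvd)
    rw [st, st, sub_self, mul_zero, zero_add, hGe] at h6
    have h8 : ℓ * (σ - 1 / 2) ≤ n * M := by
      have h10 := c.wp
      have h11 : 0 < η * w := mul_pos c.hη h10
      have h12 := c.hw
      calc ℓ * (σ - 1 / 2) ≤ ℓ * (w * (1 - δ)) := by
            gcongr
            linarith
        _ = n * (1 - δ) := by rw [← hwℓ]; ring
        _ ≤ n * M := by gcongr
    have h11 : ‖γ (σ + ((t + ((zz w t u).im - t) : ℝ) : ℂ) * I)‖ ≤ G * Real.exp (n * M + κ * n / 4) := by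
      refine h6.trans ?_
      rw [mul_assoc, ← Real.exp_add]
      refine mul_le_mul_of_nonneg_left (Real.exp_le_exp.mpr ?_) hGpos.le
      linarith
    calc ‖Λ (1 / 2 + zz w t u)‖ ≤ B * ‖γ (σ + ((t + ((zz w t u).im - t) : ℝ) : ℂ) * I)‖ := h5
      _ ≤ Real.exp (κ * n / 4) * (G * Real.exp (n * M + κ * n / 4)) :=
          mul_le_mul c.h4 h11 (norm_nonneg _) (Real.exp_pos _).le
      _ = G * Real.exp (κ * n / 4 + (n * M + κ * n / 4)) := by
          rw [Real.exp_add (κ * n / 4)]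
          ring
      _ ≤ G * Real.exp (n * M + κ * n) := by
          refine mul_le_mul_of_nonneg_left (Real.exp_le_exp.mpr ?_) hGpos.le
          linarith

/-- lower bound -/
lemma lo (c : Cfg C B σ D δ κ η t w ℓ K n) (S : Sharp C B σ Sg Λ γ D) {x : ℝ} (hx0 : 0 ≤ x)
    (hx1 : x ≤ 2) :
    GG γ σ t ℓ * Real.exp (n * (x + 1) - κ * n) ≤ ‖Λ (1 / 2 + zz w t ((x + 1 : ℝ) : ℂ))‖ := by
  obtain ⟨hu5, hr1, hr2, hr3, hr4⟩ := c.reg (u := ((x + 1 : ℝ) : ℂ)) (by rw [ofReal_re]; linarith [c.hδ])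
    (by rw [ofReal_re]; linarith) (by rw [ofReal_im, abs_zero]; norm_num)
  have hηw : 0 < η * w := mul_pos c.hη c.wp
  have h5 := S.lo (1 / 2 + zz w t ((x + 1 : ℝ) : ℂ)) (by linarith)
  have h6 := c.move S.gp (z1 := 1 / 2 + zz w t ((x + 1 : ℝ) : ℂ)) (z2 := σ + t * I) hr3
    (by rw [st]; exact c.hσ) (c.dist hu5) c.sd0
  have hr0 := abs_le.mp (c.re hu5)
  have hn0 := c.n0
  have hkn := c.kn
  have hl0 := c.l0
  have hGpos := GG_pos S.gp c.hσ t ℓ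
  have hKw := c.Kw
  have hlm := c.lm
  have hB := c.hB
  have hGe := GG_eq γ σ t ℓ
  have hwℓ := c.hwℓ
  set G := GG γ σ t ℓ with hG
  rw [st, sre, hGe] at h6
  rw [ofReal_re] at hr0
  set z := zz w t ((x + 1 : ℝ) : ℂ) with hz
  have h7 : ℓ * (σ - (1 / 2 + z.re)) + K * (14 * w) ≤ ℓ * (σ - 1 / 2) - n * (x + 1) + κ * n / 2 := by
    have h8 : ℓ * (w * (x + 1) - 100 * w ^ 2 / t) ≤ ℓ * z.re := by
      gcongr
      linarith
    have h9 : ℓ * (w * (x + 1)) = n * (x + 1) := by rw [← hwℓ]; ring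
    have e : ℓ * (σ - (1 / 2 + z.re)) = ℓ * (σ - 1 / 2) - ℓ * z.re := by ring
    have e2 : ℓ * (w * (x + 1) - 100 * w ^ 2 / t) = ℓ * (w * (x + 1)) - ℓ * (100 * w ^ 2 / t) := by ring
    rw [e]
    rw [e2] at h8
    linarith
  have h8 : G * Real.exp (ℓ * (σ - 1 / 2)) ≤ (B * ‖Λ (1 / 2 + z)‖) *
      Real.exp (ℓ * (σ - 1 / 2) - n * (x + 1) + κ * n / 2) := by
    refine h6.trans ?_
    exact mul_le_mul h5 (Real.exp_le_exp.mpr h7) (Real.exp_pos _).le (by positivity)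
  have h9 : G * Real.exp (ℓ * (σ - 1 / 2)) ≤ (Real.exp (κ * n / 4) * ‖Λ (1 / 2 + z)‖) *
      Real.exp (ℓ * (σ - 1 / 2) - n * (x + 1) + κ * n / 2) := by
    refine h8.trans ?_
    have := c.h4
    gcongr
  have h10 : G * Real.exp (n * (x + 1) - κ * n) * Real.exp (ℓ * (σ - 1 / 2) - n * (x + 1) + κ * n) ≤
      ‖Λ (1 / 2 + z)‖ * Real.exp (ℓ * (σ - 1 / 2) - n * (x + 1) + κ * n) := by
    calc G * Real.exp (n * (x + 1) - κ * n) * Real.exp (ℓ * (σ - 1 / 2) - n * (x + 1) + κ * n)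
        = G * Real.exp (ℓ * (σ - 1 / 2)) := by
          rw [mul_assoc, ← Real.exp_add]
          congr 2
          ring
      _ ≤ (Real.exp (κ * n / 4) * ‖Λ (1 / 2 + z)‖) *
          Real.exp (ℓ * (σ - 1 / 2) - n * (x + 1) + κ * n / 2) := h9
      _ = ‖Λ (1 / 2 + z)‖ * Real.exp (κ * n / 4 + (ℓ * (σ - 1 / 2) - n * (x + 1) + κ * n / 2)) := by
          rw [Real.exp_add (κ * n / 4)]
          ring
      _ ≤ ‖Λ (1 / 2 + z)‖ * Real.exp (ℓ * (σ - 1 / 2) - n * (x + 1) + κ * n) := by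
          refine mul_le_mul_of_nonneg_left (Real.exp_le_exp.mpr ?_) (norm_nonneg _)
          linarith
  exact le_of_mul_le_mul_right h10 (Real.exp_pos _)

lemma wr (c : Cfg C B σ D δ κ η t w ℓ K n) {u : ℂ} (hu5 : ‖u‖ ≤ 5) : w / ‖rr w t u‖ ≤ 2 * w := by
  have hr := (rr_ne c.wp c.ht hu5 c.sm).1
  have hw := c.wp
  rw [div_le_iff₀ (by linarith)]
  nlinarith

/-- the logarithmic derivative -/
lemma dP (c : Cfg C B σ D δ κ η t w ℓ K n) (S : Sharp C B σ Sg Λ γ D) {u : ℂ} (hu1 : 1 - δ ≤ u.re)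
    (hu2 : u.re ≤ 2 + 2) (hu3 : |u.im| ≤ 2) :
    ‖(D (1 / 2 + zz w t u) + Qf Λ γ (1 / 2 + zz w t u)) * (w / rr w t u) - n‖ ≤ κ * n := by
  obtain ⟨hu5, hr1, hr2, hr3, hr4⟩ := c.reg hu1 hu2 hu3
  have hr := rr_ne c.wp c.ht hu5 c.sm
  have hrn := rr_near c.wp c.ht hu5 c.sm
  have h5 := c.Dl hr3 (c.dist hu5)
  have h6 := Qf_bound S c.hη hr4
  have hwp := c.wp
  have hn0 := c.n0
  have hwℓ := c.hwℓ
  have hη := c.hη
  have hK := c.hK
  have ht := c.ht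
  have e : (D (1 / 2 + zz w t u) + Qf Λ γ (1 / 2 + zz w t u)) * (w / rr w t u) - n =
      ((D (1 / 2 + zz w t u) - ℓ) + Qf Λ γ (1 / 2 + zz w t u)) * (w / rr w t u) -
      (w * ℓ : ℝ) * ((rr w t u - 1) / rr w t u) := by
    have hr2' := hr.2
    have h7 : (n : ℂ) = ((w * ℓ : ℝ) : ℂ) := by rw [hwℓ]
    rw [h7]
    push_cast
    field_simp
    ring
  rw [e]
  refine (norm_sub_le _ _).trans ?_
  have h7 : ‖((D (1 / 2 + zz w t u) - ℓ) + Qf Λ γ (1 / 2 + zz w t u)) * (w / rr w t u)‖ ≤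
      (K + 2 * B ^ 2 / η) * (2 * w) := by
    rw [norm_mul, norm_div, norm_real, Real.norm_eq_abs, abs_of_pos hwp]
    have h9 := (norm_add_le (D (1 / 2 + zz w t u) - ℓ) (Qf Λ γ (1 / 2 + zz w t u))).trans (add_le_add h5 h6)
    exact mul_le_mul h9 (c.wr hu5) (by positivity) (by positivity)
  have h8 : ‖((w * ℓ : ℝ) : ℂ) * ((rr w t u - 1) / rr w t u)‖ ≤ κ * n / 2 := by
    rw [norm_mul, norm_real, norm_div, hwℓ, Real.norm_eq_abs, abs_of_pos hn0]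
    have h10 : ‖rr w t u - 1‖ / ‖rr w t u‖ ≤ 2 * (10 * w / t) := by
      rw [div_le_iff₀ (by linarith)]
      have : 0 ≤ 10 * w / t := by positivity
      nlinarith
    have h11 : 2 * (10 * w / t) ≤ κ / 2 := by
      rw [← mul_div_assoc, div_le_iff₀ ht]
      linarith [c.kt]
    calc n * (‖rr w t u - 1‖ / ‖rr w t u‖) ≤ n * (κ / 2) :=
          mul_le_mul_of_nonneg_left (h10.trans h11) hn0.le
      _ = κ * n / 2 := by ring
  have h9 : (K + 2 * B ^ 2 / η) * (2 * w) ≤ κ * n / 2 := by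
    rw [← hwℓ]
    have h10 := c.h1
    have h11 : w * (4 * (K + 2 * B ^ 2 / η)) ≤ w * (κ * ℓ) := by gcongr
    linarith
  linarith

lemma ddP (c : Cfg C B σ D δ κ η t w ℓ K n) (S : Sharp C B σ Sg Λ γ D) {u : ℂ} (hu1 : 1 - δ ≤ u.re)
    (hu2 : u.re ≤ 2 + 2) (hu3 : |u.im| ≤ 2) :
    ∃ d : ℂ, HasDerivAt (fun u => (D (1 / 2 + zz w t u) + Qf Λ γ (1 / 2 + zz w t u)) * (w / rr w t u)) d u ∧
      ‖d‖ ≤ κ * n := by
  obtain ⟨hu5, hr1, hr2, hr3, hr4⟩ := c.reg hu1 hu2 hu3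
  have hr := rr_ne c.wp c.ht hu5 c.sm
  have hwp := c.wp
  have hn0 := c.n0
  have hkn := c.kn
  have hwℓ := c.hwℓ
  have hη := c.hη
  have hK := c.hK
  have ht := c.ht
  have hC := c.hC
  have hw0 := c.w0
  have hl0 := c.l0
  have hηw : 0 < η * w := mul_pos hη hwp
  obtain ⟨d, hd1, hd2⟩ := S.gp.dD (1 / 2 + zz w t u) hr3
  have h5 := (Qf_diff S (z := 1 / 2 + zz w t u) (by linarith)).hasDerivAt
  have h6 := Qf_deriv S hηw (z := 1 / 2 + zz w t u) hr2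
  have h6' := Qf_bound S hη hr4
  have h5D := c.Dl hr3 (c.dist hu5)
  have h7 : HasDerivAt (fun u : ℂ => (1 / 2 + zz w t u : ℂ)) (w / rr w t u) u :=
    (zz_hasDerivAt hwp ht hu5 c.sm).const_add _
  have h8 := HasDerivAt.comp u hd1 h7
  have h9 := HasDerivAt.comp u h5 h7
  have hrd := rr_hasDerivAt hwp ht hu5 c.sm
  have h10 : HasDerivAt (fun u => (w : ℂ) / rr w t u)
      (-(w * (-(I * w / (t * rr w t u))) / (rr w t u) ^ 2)) u := by
    have := (hasDerivAt_const u (w : ℂ)).div hrd hr.2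
    refine this.congr_deriv ?_
    ring
  have h11 := (h8.add h9).mul h10
  refine ⟨_, h11, ?_⟩
  have hr99 := hr.1
  have hrpos : 0 < ‖rr w t u‖ := by linarith
  have hwr := c.wr hu5
  have hd3 : ‖d‖ ≤ 4 * C / w := by
    refine hd2.trans ?_
    rw [div_le_div_iff₀ (by linarith) hwp]
    have : C * (w / 4) ≤ C * (1 / 2 + zz w t u).re := by gcongr
    linarith
  have hq3 : ‖deriv (Qf Λ γ) (1 / 2 + zz w t u)‖ ≤ 4 * B ^ 2 / (η ^ 2 * w ^ 2) := by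
    rw [mul_pow] at h6
    exact h6
  have hDQ : ‖D (1 / 2 + zz w t u) + Qf Λ γ (1 / 2 + zz w t u)‖ ≤ 2 * ℓ := by
    have e : D (1 / 2 + zz w t u) + Qf Λ γ (1 / 2 + zz w t u) =
      (D (1 / 2 + zz w t u) - ℓ) + Qf Λ γ (1 / 2 + zz w t u) + ℓ := by ring
    rw [e]
    refine (norm_add_le _ _).trans ?_
    have h12 := (norm_add_le (D (1 / 2 + zz w t u) - ℓ) (Qf Λ γ (1 / 2 + zz w t u))).trans
      (add_le_add h5D h6')
    rw [norm_real, Real.norm_eq_abs, abs_of_pos hl0]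
    have h13 : κ * ℓ ≤ 1 * ℓ := by
      gcongr
      linarith [c.ksm]
    have h14 : 0 ≤ 2 * B ^ 2 / η := by positivity
    linarith [c.h1]
  have hA : ‖d * (w / rr w t u) + deriv (Qf Λ γ) (1 / 2 + zz w t u) * (w / rr w t u)‖ ≤
      (4 * C / w + 4 * B ^ 2 / (η ^ 2 * w ^ 2)) * (2 * w) := by
    rw [← add_mul, norm_mul, norm_div, norm_real, Real.norm_eq_abs, abs_of_pos hwp]
    exact mul_le_mul ((norm_add_le _ _).trans (add_le_add hd3 hq3)) hwr (by positivity) (by positivity)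
  have hB' : ‖(w : ℂ) / rr w t u‖ ≤ 2 * w := by
    rw [norm_div, norm_real, Real.norm_eq_abs, abs_of_pos hwp]
    exact hwr
  have hC' : ‖-((w : ℂ) * (-(I * w / (t * rr w t u))) / (rr w t u) ^ 2)‖ ≤ 2 * w ^ 2 / t := by
    rw [norm_neg, norm_div, norm_mul, norm_neg, norm_div, norm_mul, norm_mul, norm_I, norm_real,
      norm_real, Real.norm_eq_abs, Real.norm_eq_abs, abs_of_pos hwp, abs_of_pos ht, norm_pow, one_mul]
    have e : w * (w / (t * ‖rr w t u‖)) / ‖rr w t u‖ ^ 2 = w ^ 2 / (t * ‖rr w t u‖ ^ 3) := by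
      field_simp
    rw [e, div_le_div_iff₀ (by positivity) ht]
    have h12 : (1 / 2 : ℝ) ≤ ‖rr w t u‖ ^ 3 := by
      have : (99 / 100 : ℝ) ^ 3 ≤ ‖rr w t u‖ ^ 3 := by gcongr
      have h13 : (1 / 2 : ℝ) ≤ (99 / 100 : ℝ) ^ 3 := by norm_num
      linarith
    have h14 : 0 ≤ w ^ 2 * t := by positivity
    have h15 : w ^ 2 * t * (1 / 2) ≤ w ^ 2 * t * ‖rr w t u‖ ^ 3 := by gcongr
    linarith
  have hfin : (4 * C / w + 4 * B ^ 2 / (η ^ 2 * w ^ 2)) * (2 * w) * (2 * w) + 2 * ℓ * (2 * w ^ 2 / t) ≤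
      κ * n := by
    have e1 : (4 * C / w + 4 * B ^ 2 / (η ^ 2 * w ^ 2)) * (2 * w) * (2 * w) =
        16 * C * w + 16 * (B ^ 2 / η ^ 2) := by
      field_simp
      ring
    have e0 : 0 ≤ B ^ 2 / η ^ 2 := by positivity
    have e2 : 16 * (B ^ 2 / η ^ 2) ≤ 32 * (B ^ 2 / η ^ 2) * w := by
      have : (B ^ 2 / η ^ 2) * (1 / 2) ≤ (B ^ 2 / η ^ 2) * w := by gcongr
      linarith
    have e5 : 2 * ℓ * (2 * w ^ 2 / t) ≤ κ * n / 2 := by
      have e6 : 2 * ℓ * (2 * w ^ 2 / t) = 4 / 100 * (ℓ * (100 * w ^ 2 / t)) := by ring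
      rw [e6]
      linarith [c.lm]
    have e7 : 16 * C * w + 32 * (B ^ 2 / η ^ 2) * w ≤ κ * n / 2 := by
      rw [← hwℓ]
      have h12 := c.h2
      have h13 : w * (2 * (16 * C + 32 * B ^ 2 / η ^ 2)) ≤ w * (κ * ℓ) := by gcongr
      have e8 : w * (2 * (16 * C + 32 * B ^ 2 / η ^ 2)) = 2 * (16 * C * w + 32 * (B ^ 2 / η ^ 2) * w) := by
        ring
      rw [e8] at h13
      linarith
    rw [e1]
    linarith
  refine le_trans ?_ hfin
  refine (norm_add_le _ _).trans (add_le_add ?_ ?_)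
  · rw [norm_mul]
    exact mul_le_mul hA hB' (norm_nonneg _) (by positivity)
  · rw [norm_mul]
    exact mul_le_mul hDQ hC' (norm_nonneg _) (by positivity)

end Cfg

/-- the local structure -/
theorem loc_of2 {δ κ η t w ℓ K : ℝ} {n : ℕ} (c : Cfg C B σ D δ κ η t w ℓ K n)
    (S : Sharp C B σ Sg Λ γ D) (hF : Differentiable ℂ F)
    (hFs : ∀ x, F (conj x) = conj (F x)) (hFL : ∀ z, F (z ^ 2) = Λ (1 / 2 + z)) :
    Loc (fun s => F (-(t : ℂ) ^ 2 + 2 * I * t * w * (s - 1 / 2)))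
      (fun u => (D (1 / 2 + zz w t u) + Qf Λ γ (1 / 2 + zz w t u)) * (w / rr w t u))
      n δ κ (Cfg.GG γ σ t ℓ) 0 2 := by
  have hwp := c.wp
  have ht := c.ht
  have hGpos := Cfg.GG_pos S.gp c.hσ t ℓ
  have hFz : ∀ u : ℂ, F (-(t : ℂ) ^ 2 + 2 * I * t * w * u) = Λ (1 / 2 + zz w t u) := fun u => by
    rw [← hFL, zz_sq ht.ne']
  have hcc : ∀ u : ℂ, -(t : ℂ) ^ 2 + 2 * I * t * w * (cc 0 + u - 1 / 2) =
      -(t : ℂ) ^ 2 + 2 * I * t * w * u := by
    intro u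
    unfold cc
    push_cast
    ring
  refine
    { diff := ?_, fe := ⟨1, norm_one, fun s => ?_⟩, der := ?_, dP := ?_, ddP := ?_, up := ?_, lo := ?_,
      hG := hGpos, hδ := c.hδ, hδ' := c.hδ', hκ := c.hκ.le, hκ' := c.hκ', hX := by norm_num, hn := c.hn,
      hnδ := c.hnδ }
  · exact hF.comp (by fun_prop)
  · rw [one_mul, ← hFs]
    congr 1
    simp only [map_add, map_neg, map_mul, map_sub, map_pow, Complex.conj_ofReal, Complex.conj_I,
      map_div₀, map_one, map_ofNat, Complex.conj_conj]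
    ring
  · intro u hu1 hu2 hu3
    obtain ⟨hu5, hr1, hr2, hr3, hr4⟩ := c.reg hu1 hu2 hu3
    have hηw : 0 < η * w := mul_pos c.hη hwp
    have h5 := lam_der S (z := 1 / 2 + zz w t u) (by linarith)
    have hr := rr_ne hwp ht hu5 c.sm
    have htc : (t : ℂ) ≠ 0 := by exact_mod_cast ht.ne'
    have hz : zz w t u ≠ 0 := by
      unfold zz
      exact mul_ne_zero (mul_ne_zero I_ne_zero htc) hr.2
    have h6 := deriv_of_sq hF hFL hz h5
    rw [zz_sq ht.ne'] at h6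
    have h7 : HasDerivAt (fun s : ℂ => -(t : ℂ) ^ 2 + 2 * I * t * w * (s - 1 / 2)) (2 * I * t * w)
        (cc 0 + u) := by
      have := (((hasDerivAt_id (cc 0 + u)).sub_const (1 / 2)).const_mul (2 * I * t * w : ℂ)).const_add
        (-(t : ℂ) ^ 2)
      simpa using this
    have h8 := (hF (-(t : ℂ) ^ 2 + 2 * I * t * w * (cc 0 + u - 1 / 2))).hasDerivAt.comp (cc 0 + u) h7
    refine h8.congr_deriv ?_
    show deriv F (-(t : ℂ) ^ 2 + 2 * I * t * w * (cc 0 + u - 1 / 2)) * (2 * I * t * w) =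
      F (-(t : ℂ) ^ 2 + 2 * I * t * w * (cc 0 + u - 1 / 2)) * _
    rw [hcc, h6, hFz]
    have hr2' := hr.2
    have ez : zz w t u = I * t * rr w t u := rfl
    have e9 : (2 * I * t * w : ℂ) / (2 * zz w t u) = w / rr w t u := by
      rw [ez]
      field_simp
    rw [div_mul_eq_mul_div, mul_div_assoc, e9]
    ring
  · intro u hu1 hu2 hu3
    exact c.dP S hu1 hu2 hu3
  · intro u hu1 hu2 hu3
    exact c.ddP S hu1 hu2 hu3
  · intro u hu1 hu2
    show ‖F (-(t : ℂ) ^ 2 + 2 * I * t * w * (cc 0 + u - 1 / 2))‖ ≤ _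
    rw [hcc]
    have hu1' := abs_le.mp hu1
    rcases le_total 0 u.re with h | h
    · rw [hFz]
      exact c.up S h hu1'.2 hu2
    · have h5 := c.up S (u := -conj u) (by simp [h]) (by simp; linarith) (by simpa using hu2)
      rw [← hFz] at h5
      have e1 : F (-(t : ℂ) ^ 2 + 2 * I * t * w * (-conj u)) =
          conj (F (-(t : ℂ) ^ 2 + 2 * I * t * w * u)) := by
        rw [← hFs]
        congr 1
        simp only [map_add, map_neg, map_mul, map_pow, Complex.conj_ofReal, Complex.conj_I, map_ofNat]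
        ring
      rw [e1, Complex.norm_conj] at h5
      have e2 : |(-conj u).re| = |u.re| := by simp
      rwa [e2] at h5
  · intro x hx0 hx1
    show _ ≤ ‖F (-(t : ℂ) ^ 2 + 2 * I * t * w * (cc 0 + ((x + 1 : ℝ) : ℂ) - 1 / 2))‖
    rw [hcc, hFz]
    exact c.lo S hx0 hx1

end Pool.Agent.J4H1.JP
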