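import Pool.Agent.J4H1.JP.Shp

set_option autoImplicit false

/-!
# Zeros of `F^(n)` in the range in the middle
-/

namespace Pool.Agent.J4H1.JP

open Complex Set Filter Topology MeasureTheory
open scoped ComplexConjugate
open H353.E H353.F

lemma iter_affine {f : ℂ → ℂ} (hf : Differentiable ℂ f) (x0 c : ℂ) (n : ℕ) (s : ℂ) :
    iteratedDeriv n (fun s => f (x0 + c * (s - 1 / 2))) s = c ^ n * iteratedDeriv n f (x0 + c * (s - 1 / 2)) := by
  have e : (fun s : ℂ => f (x0 + c * (s - 1 / 2))) =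
      fun s : ℂ => (fun z => f (z + (x0 - c / 2))) (c * s) := by
    funext z
    show f _ = f _
    congr 1
    ring
  have hd : Differentiable ℂ (fun z : ℂ => f (z + (x0 - c / 2))) := by fun_prop
  rw [e, iteratedDeriv_comp_const_mul (hd.contDiff) c]
  have h2 := congrFun (iteratedDeriv_comp_add_const n f (x0 - c / 2)) (c * s)
  simp only
  rw [h2]
  congr 2
  ring

/-- one value of `n` -/
lemma mid_one {C B σ : ℝ} {Sg : ℝ → ℝ} {γ D : ℂ → ℂ} {δ κ η t w ℓ K : ℝ} {n : ℕ}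
    (c : Cfg C B σ D δ κ η t w ℓ K n) (S : Sharp C B σ Sg XX γ D) {x : ℂ} (hx : x.re = -t ^ 2)
    (hx2 : |x.im| ≤ 2 * t) (hz : Fn n x = 0) : x.im = 0 := by
  have hwp := c.wp
  have hw0 := c.w0
  have ht := c.ht
  have hL := loc_of2 c S diff_F F_sym F_XX
  set u : ℝ := x.im / (2 * t * w) with hu
  have htw : 0 < 2 * t * w := by positivity
  have hu1 : |u| ≤ 2 := by
    rw [hu, abs_div, abs_of_pos htw, div_le_iff₀ htw]
    have : 2 * t * 1 ≤ 2 * t * (2 * w) := by gcongr; linarith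
    linarith
  have hux : 2 * t * w * u = x.im := by
    rw [hu]; field_simp
  have hpt : -(t : ℂ) ^ 2 + 2 * I * t * w * ((1 / 2 + (u : ℂ)) - 1 / 2) = x := by
    have e : -(t : ℂ) ^ 2 + 2 * I * t * w * ((1 / 2 + (u : ℂ)) - 1 / 2) =
      ((-t ^ 2 : ℝ) : ℂ) + ((2 * t * w * u : ℝ) : ℂ) * I := by push_cast; ring
    rw [e, hux, ← hx]
    exact re_add_im x
  have hz' : iteratedDeriv n (fun s : ℂ => F (-(t : ℂ) ^ 2 + 2 * I * t * w * (s - 1 / 2))) (1 / 2 + (u : ℂ)) = 0 := by
    rw [iter_affine diff_F, hpt]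
    have : iteratedDeriv n F x = 0 := hz
    rw [this, mul_zero]
  have hfin := hL.zeros (s := 1 / 2 + (u : ℂ)) (by simp) (by simpa using hu1) hz'
  have h5 := hfin.1
  have h6 : u = 0 := by
    rw [add_re, ofReal_re] at h5
    have : (1 / 2 : ℂ).re = 1 / 2 := by norm_num
    rw [this] at h5
    linarith
  rw [← hux, h6, mul_zero]

lemma ev_pow (a b : ℝ) (hb : 0 < b) : ∀ᶠ n : ℕ in atTop, a ≤ b * n := by
  have h : Tendsto (fun n : ℕ => b * (n : ℝ)) atTop atTop :=
    tendsto_natCast_atTop_atTop.const_mul_atTop hb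
  exact h.eventually_ge_atTop a

theorem t_mid : S_mid := by
  intro ε0 hε0
  -- reduce to `ε ≤ 1`
  set ε : ℝ := min ε0 1 with hε
  have hεp : 0 < ε := lt_min hε0 one_pos
  have hε1 : ε ≤ 1 := min_le_right _ _
  have hεε : ε ≤ ε0 := min_le_left _ _
  obtain ⟨B, hB, S⟩ := XX_sharp (η := ε / 16) (by positivity) (by linarith)
  set δ : ℝ := ε / 64 with hδ
  set κ : ℝ := δ / 1000000 with hκ
  have hδp : 0 < δ := by positivity
  have hκp : 0 < κ := by positivity
  set C : ℝ := 6 * ((1 : ℕ) : ℝ) with hC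
  set M : ℝ := 4 * (7 + 2 * B ^ 2 / δ) + 2 * (16 * C + 32 * B ^ 2 / δ ^ 2) + 64 * 7 with hM
  have hlog : Tendsto (fun n : ℕ => κ * Real.log (n : ℝ)) atTop atTop :=
    (Real.tendsto_log_atTop.comp tendsto_natCast_atTop_atTop).const_mul_atTop hκp
  have e1 := hlog.eventually_ge_atTop M
  have e2 := ev_pow (Real.log B) (κ / 4) (by positivity)
  have e3 := ev_pow (10000 / δ ^ 2) 1 one_pos
  have e4 := ev_pow 1000000000000 1 one_pos
  have e5 := ev_pow (2000 / (κ * δ)) 1 one_pos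
  obtain ⟨n0, hn0⟩ := (e1.and (e2.and (e3.and (e4.and e5)))).exists_forall_of_atTop
  refine ⟨3, n0, fun n hn z hz hz1 hz2 hz3 => ?_⟩
  obtain ⟨a1, a2, a3, a4, a5⟩ := hn0 n hn
  rw [one_mul] at a3 a4 a5
  have hnpos : (0 : ℝ) < n := by linarith
  have hz2' : (n : ℝ) ^ (3 : ℕ) ≤ |z.im| := by
    have h := Real.rpow_natCast (n : ℝ) 3
    rw [← h]
    refine le_trans (le_of_eq ?_) hz2
    norm_num
  clear hz2
  have hnn3 : (n : ℝ) ≤ (n : ℝ) ^ (3 : ℕ) := by
    calc (n : ℝ) = n ^ 1 := by ring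
      _ ≤ (n : ℝ) ^ (3 : ℕ) := pow_le_pow_right₀ (by linarith) (by norm_num)
  set τ : ℝ := |z.im| with hτ
  have hτ1 : 1000000000000 ≤ τ := by linarith
  have hre2 : z.re ^ 2 ≤ 1 / 4 := by
    rw [← sq_abs]
    nlinarith [abs_nonneg z.re]
  have hre0 : 0 ≤ z.re ^ 2 := sq_nonneg _
  set t : ℝ := Real.sqrt (τ ^ 2 - z.re ^ 2) with ht
  have hpos : 0 ≤ τ ^ 2 - z.re ^ 2 := by nlinarith
  have ht2 : t ^ 2 = τ ^ 2 - z.re ^ 2 := Real.sq_sqrt hpos
  have ht0 : 0 ≤ t := Real.sqrt_nonneg _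
  have htle : t ≤ τ := by
    rw [ht]
    apply Real.sqrt_le_iff.mpr
    exact ⟨by linarith, by linarith⟩
  have htge : τ - 1 ≤ t := by
    rw [ht]
    apply Real.le_sqrt_of_sq_le
    nlinarith
  have htn : (n : ℝ) ^ 2 * (n / 2) ≤ t := by
    have h5 : (n : ℝ) ^ (3 : ℕ) / 2 ≤ t := by linarith
    calc (n : ℝ) ^ 2 * (n / 2) = (n : ℝ) ^ (3 : ℕ) / 2 := by ring
      _ ≤ t := h5
  have htpos : 0 < t := by linarith
  have hn2t : (n : ℝ) ^ 2 ≤ t := by
    refine le_trans ?_ htn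
    have : (1 : ℝ) ≤ n / 2 := by linarith
    nlinarith [sq_nonneg (n : ℝ)]
  set ℓ : ℝ := 1 / 2 * Real.log t with hℓ
  have hℓn : Real.log n ≤ ℓ := by
    have h1 : Real.log ((n : ℝ) ^ 2) ≤ Real.log t := Real.log_le_log (by positivity) hn2t
    rw [Real.log_pow] at h1
    push_cast at h1
    rw [hℓ]
    linarith
  have hκℓ : M ≤ κ * ℓ := a1.trans (by gcongr)
  have hMterms : 0 ≤ 4 * (7 + 2 * B ^ 2 / δ) ∧ 0 ≤ 2 * (16 * C + 32 * B ^ 2 / δ ^ 2) := by
    constructor
    · positivity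
    · have : 0 ≤ C := by rw [hC]; norm_num
      positivity
  have hℓ1 : 1 ≤ ℓ := by
    have h1 : 1 ≤ M := by rw [hM]; linarith [hMterms.1, hMterms.2]
    by_contra hc
    push Not at hc
    have : κ * ℓ < 1 := by
      have h2 : κ ≤ 1 := by rw [hκ, hδ]; linarith
      rcases le_or_gt 0 ℓ with h | h
      · nlinarith
      · nlinarith
    linarith
  have hℓup : ℓ ≤ 1 / 2 * ((4 - ε) * n) := by
    have h1 : t ≤ Real.exp ((4 - ε0) * n) := htle.trans hz3
    have h2 := Real.log_le_log htpos h1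
    rw [Real.log_exp] at h2
    have h3 : (4 - ε0) * n ≤ (4 - ε) * n := by gcongr
    rw [hℓ]
    linarith
  set w : ℝ := n / ℓ with hw
  have hwℓ : w * ℓ = n := by rw [hw]; field_simp
  have hwpos : 0 < w := by positivity
  have hwn : w ≤ n := by
    rw [hw, div_le_iff₀ (by linarith)]
    nlinarith
  have hwlow : 1 / 2 * (1 + ε / 4) ≤ w := by
    rw [hw, le_div_iff₀ (by linarith)]
    calc 1 / 2 * (1 + ε / 4) * ℓ ≤ 1 / 2 * (1 + ε / 4) * (1 / 2 * ((4 - ε) * n)) := by gcongr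
      _ = (1 - ε ^ 2 / 16) * n := by ring
      _ ≤ 1 * n := by
        have : 0 ≤ ε ^ 2 / 16 := by positivity
        gcongr
        linarith
      _ = n := one_mul _
  have c : Cfg C B (1 + ε / 16) (gaD 1 m4) δ κ δ t w ℓ 7 n :=
    { hδ := hδp
      hδ' := by rw [hδ]; linarith
      hκ := hκp
      hκ' := le_rfl
      hη := hδp
      hη1 := by rw [hδ]; linarith
      hC := by rw [hC]; norm_num
      hB := hB
      hσ := by linarith
      hσ2 := by linarith
      hw := by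
        have h1 : 1 / 2 * (1 + ε / 4) * (1 - 3 * δ) ≤ w * (1 - 3 * δ) := by
          have : 0 ≤ 1 - 3 * δ := by rw [hδ]; linarith
          gcongr
        have h2 : 1 / 2 + ε / 16 ≤ 1 / 2 * (1 + ε / 4) * (1 - 3 * δ) := by
          rw [hδ]
          nlinarith
        linarith
      hn := a4
      hnδ := a3
      hwℓ := hwℓ
      ht := htpos
      htw := by
        have h1 : 1000 * w ≤ 1000 * n := by gcongr
        have h2 : 2000 ≤ κ * δ * n := by
          rw [div_le_iff₀ (by positivity)] at a5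
          linarith
        have h3 : κ * δ * ((n : ℝ) ^ 2 * (n / 2)) ≤ κ * δ * t := by gcongr
        have h4 : 1000 * (n : ℝ) ≤ κ * δ * ((n : ℝ) ^ 2 * (n / 2)) := by
          have h5 : κ * δ * ((n : ℝ) ^ 2 * (n / 2)) = (κ * δ * n) * (n * n / 2) := by ring
          rw [h5]
          have h6 : 2000 * ((n : ℝ) * n / 2) ≤ (κ * δ * n) * (n * n / 2) := by gcongr
          nlinarith
        linarith
      hK := by norm_num
      hD := fun s h1 h2 => gaD_near (by linarith) h1 h2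
      h1 := by
        have := hMterms.2
        rw [hM] at hκℓ
        linarith
      h2 := by
        have := hMterms.1
        rw [hM] at hκℓ
        linarith
      h3 := by
        have := hMterms.1
        have := hMterms.2
        rw [hM] at hκℓ
        linarith
      h4 := by
        rw [← Real.log_le_iff_le_exp (by linarith)]
        linarith }
  have hxre : (z ^ 2).re = -t ^ 2 := by
    rw [sq z, mul_re, ht2, hτ, sq_abs]
    ring
  have hxim : (z ^ 2).im = 2 * z.re * z.im := by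
    rw [sq z, mul_im]; ring
  have hfin := mid_one c S hxre (by
    rw [hxim, abs_mul, abs_mul, abs_two]
    have : |z.re| * τ ≤ 1 / 2 * τ := by gcongr
    have e : 2 * |z.re| * |z.im| = 2 * (|z.re| * τ) := by rw [hτ]; ring
    rw [e]
    linarith) hz
  rw [hxim] at hfin
  have hzim : z.im ≠ 0 := by
    intro h
    rw [hτ, h, abs_zero] at hτ1
    linarith
  rcases mul_eq_zero.mp hfin with h | h
  · linarith
  · exact absurd h hzim

end Pool.Agent.J4H1.JP
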