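import Pool.Agent.J4H1.JP.Loc2
import Pool.Agent.J4H1.JP.F1

set_option autoImplicit false

/-!
# The sharp analytic data of the Riemann xi function
-/

namespace Pool.Agent.J4H1.JP

open Complex Set Filter Topology MeasureTheory
open scoped ComplexConjugate
open H353.E H353.F
open Pool.Agent.Helper242.KK (Ph FT Ph_upper continuous_Ph FT_upper)

/-- `ξ(s)` -/
noncomputable def XX (s : ℂ) : ℂ := Xi (s - 1 / 2)

/-- the shift -/
def m4 : Fin 1 → ℂ := fun _ => -4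

lemma XX_half (z : ℂ) : XX (1 / 2 + z) = Xi z := by
  unfold XX; congr 1; ring

lemma F_XX (z : ℂ) : F (z ^ 2) = XX (1 / 2 + z) := by rw [XX_half, F_sq]

lemma Xi_conj (z : ℂ) : Xi (conj z) = conj (Xi z) := by
  rw [← F_sq, ← F_sq, ← F_sym, map_pow]

lemma diff_XX : Differentiable ℂ XX := diff_Xi.comp (by fun_prop)

lemma XX_fe (s : ℂ) : XX s = 1 * conj (XX (1 - conj s)) := by
  unfold XX
  rw [one_mul, ← Xi_conj, ← Xi_neg]
  congr 1
  simp only [map_sub, map_one, map_div₀, map_ofNat, Complex.conj_conj]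
  ring

lemma gaf_eq (s : ℂ) : gaf 1 m4 s = Gammaℝ (s + 4) := by
  unfold gaf m4
  simp

lemma XX_eq {s : ℂ} (h : 1 ≤ s.re) (h1 : s ≠ 1) :
    XX s = 2 * Real.pi ^ 2 * ((s - 1) / (s + 2)) * riemannZeta s * gaf 1 m4 s := by
  have e : s = 1 / 2 + I * (-I * (s - 1 / 2)) := by
    have h5 : I * (-I * (s - 1 / 2)) = -(I * I) * (s - 1 / 2) := by ring
    rw [h5, I_mul_I]; ring
  have hs0 : s ≠ 0 := by
    intro h2; rw [h2] at h; simp at h; linarith
  have hs2 : s + 2 ≠ 0 := by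
    intro h2
    have := congrArg Complex.re h2
    rw [add_re] at this
    simp at this
    linarith
  have hpi : (Real.pi : ℂ) ≠ 0 := by exact_mod_cast Real.pi_ne_zero
  unfold XX
  rw [Xi_eq_XiC, H401R2.XiC_eq e (by linarith) h1, gaf_eq]
  have e1 : (Real.pi : ℂ) ^ (-s / 2) * Gamma (s / 2) = Gammaℝ s := by rw [Gammaℝ_def]
  have e2 : Gammaℝ (s + 4) = Gammaℝ s * s / 2 / Real.pi * (s + 2) / 2 / Real.pi := by
    rw [← Gammaℝ_add_two hs0, ← Gammaℝ_add_two hs2]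
    congr 1
    ring
  rw [e2, mul_assoc (s * (s - 1) / 2), e1]
  field_simp

lemma zeta_two {η : ℝ} (hη : 0 < η) : ∃ B : ℝ, 1 ≤ B ∧ ∀ s : ℂ, 1 + η ≤ s.re →
    ‖riemannZeta s‖ ≤ B ∧ 1 ≤ B * ‖riemannZeta s‖ := by
  obtain ⟨B, hB, h⟩ := euler_two 1 hη
  refine ⟨B, hB, fun s hs => ?_⟩
  have h1 := h 0 (fun _ _ => 1) (fun _ p _ => by simp) s (by linarith)
  have e : euler (fun (_ : Fin 1) (_ : ℕ) => (1 : ℂ)) s = riemannZeta s := by
    unfold euler
    rw [← riemannZeta_eulerProduct_tprod (by linarith : 1 < s.re)]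
    simp
  rw [e] at h1
  exact h1

lemma ratio_bounds {s : ℂ} {η : ℝ} (hη : 0 < η) (hs : 1 + η ≤ s.re) :
    ‖s - 1‖ ≤ ‖s + 2‖ ∧ ‖s + 2‖ ≤ (1 + 3 / η) * ‖s - 1‖ ∧ 0 < ‖s - 1‖ ∧ 0 < ‖s + 2‖ := by
  have h1 : η ≤ ‖s - 1‖ := by
    have := re_le_norm (s - 1)
    rw [sub_re, one_re] at this
    linarith
  have h2 : ‖s + 2‖ ≤ ‖s - 1‖ + 3 := by
    have e : s + 2 = (s - 1) + 3 := by ring
    rw [e]
    refine (norm_add_le _ _).trans ?_
    norm_num
  have h3 : ‖s - 1‖ ≤ ‖s + 2‖ := by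
    rw [Complex.norm_eq_sqrt_sq_add_sq, Complex.norm_eq_sqrt_sq_add_sq]
    apply Real.sqrt_le_sqrt
    rw [sub_re, sub_im, add_re, add_im, one_re, one_im, re_ofNat, im_ofNat]
    nlinarith
  refine ⟨h3, h2.trans ?_, by linarith, by linarith⟩
  have h4 : 3 ≤ 3 / η * ‖s - 1‖ := by
    rw [div_mul_eq_mul_div, le_div_iff₀ hη]
    nlinarith
  linarith

lemma XX_bdd : ∃ M, ∀ s : ℂ, -3 ≤ s.re → s.re ≤ 4 → ‖XX s‖ ≤ Real.exp (M * (1 + |s.im|)) := by
  obtain ⟨A, -, hA⟩ := Ph_upper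
  obtain ⟨C, hC, h⟩ := FT_upper continuous_Ph hA
  refine ⟨4 / 2 * Real.log (2 + 4) + C * (1 + 4), fun s h1 h2 => ?_⟩
  unfold XX
  rw [Xi_eq_FT]
  refine (h _).trans (Real.exp_le_exp.mpr ?_)
  have e : (-I * (s - 1 / 2)).im = -(s.re - 1 / 2) := by
    rw [neg_mul, neg_im, I_mul_im, sub_re]
    norm_num
  rw [e, abs_neg]
  have hY : |s.re - 1 / 2| ≤ 4 := by rw [abs_le]; constructor <;> linarith
  have hY0 := abs_nonneg (s.re - 1 / 2)
  set Y := |s.re - 1 / 2| with hYd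
  have h3 : Real.log (2 + Y) ≤ Real.log (2 + 4) := Real.log_le_log (by linarith) (by linarith)
  have h4 : 0 ≤ Real.log (2 + Y) := Real.log_nonneg (by linarith)
  have h5 : Y / 2 * Real.log (2 + Y) ≤ 4 / 2 * Real.log (2 + 4) := by gcongr
  have h6 : C * (1 + Y) ≤ C * (1 + 4) := by gcongr
  have h7 : 0 ≤ |s.im| := abs_nonneg _
  have h8 : 0 ≤ 4 / 2 * Real.log (2 + 4) + C * (1 + 4) := by
    have : 0 ≤ Real.log (2 + 4) := Real.log_nonneg (by norm_num)
    positivity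
  nlinarith

lemma m4_re : ∀ j, (m4 j).re ≤ 1 / 2 := fun j => by
  unfold m4
  simp
  norm_num

/-- The data are sharp. -/
lemma XX_sharp {η : ℝ} (hη : 0 < η) (hη1 : η ≤ 1) : ∃ B : ℝ, 1 ≤ B ∧
    Sharp (6 * ((1 : ℕ) : ℝ)) B (1 + η) (fun K => 4 * Real.exp (2 * |K| + 10)) XX (gaf 1 m4) (gaD 1 m4) := by
  obtain ⟨B0, hB0, hz⟩ := zeta_two hη
  have gp := gaf_GP (m := 1) le_rfl (N := 1) le_rfl m4_re
  have hpi := Real.pi_gt_three
  have hpi2 := Real.pi_lt_d2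
  set B1 : ℝ := 20 * B0 * (1 + 3 / η) with hB1
  have h3η : 0 ≤ 3 / η := by positivity
  have hB1' : 1 ≤ B1 := by
    rw [hB1]
    have : 1 ≤ B0 * (1 + 3 / η) := by nlinarith
    nlinarith
  have hne : ∀ s : ℂ, 1 + η ≤ s.re → s ≠ 1 := fun s hs h => by
    rw [h, one_re] at hs; linarith
  have hpin : ‖(Real.pi : ℂ)‖ = Real.pi := by
    rw [norm_real, Real.norm_eq_abs, abs_of_pos Real.pi_pos]
  have hhi : ∀ s : ℂ, 1 + η ≤ s.re → ‖XX s‖ ≤ B1 * ‖gaf 1 m4 s‖ := fun s hs => by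
    obtain ⟨r1, r2, r3, r4⟩ := ratio_bounds hη hs
    have hzs := (hz s hs).1
    rw [XX_eq (by linarith) (hne s hs), norm_mul, norm_mul, norm_mul, norm_mul, norm_div, norm_pow, hpin]
    have h1 : ‖(2 : ℂ)‖ = 2 := by norm_num
    rw [h1]
    refine mul_le_mul_of_nonneg_right ?_ (norm_nonneg _)
    have h2 : ‖s - 1‖ / ‖s + 2‖ ≤ 1 := (div_le_one r4).mpr r1
    have h4 : 2 * Real.pi ^ 2 ≤ 20 := by nlinarith
    calc 2 * Real.pi ^ 2 * (‖s - 1‖ / ‖s + 2‖) * ‖riemannZeta s‖ ≤ 20 * 1 * B0 := by gcongr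
      _ = 20 * B0 * 1 := by ring
      _ ≤ B1 := by
        rw [hB1]
        gcongr
        linarith
  have hlo : ∀ s : ℂ, 1 + η ≤ s.re → ‖gaf 1 m4 s‖ ≤ B1 * ‖XX s‖ := fun s hs => by
    obtain ⟨r1, r2, r3, r4⟩ := ratio_bounds hη hs
    have hzs := (hz s hs).2
    rw [XX_eq (by linarith) (hne s hs), norm_mul, norm_mul, norm_mul, norm_mul, norm_div, norm_pow, hpin]
    have h1 : ‖(2 : ℂ)‖ = 2 := by norm_num
    rw [h1]
    have hζ0 := norm_nonneg (riemannZeta s)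
    have h2 : 1 ≤ (1 + 3 / η) * (‖s - 1‖ / ‖s + 2‖) := by
      rw [← mul_div_assoc, le_div_iff₀ r4]
      linarith
    have h4 : 1 ≤ 2 * Real.pi ^ 2 := by nlinarith
    have h5 : 1 ≤ ((1 + 3 / η) * (‖s - 1‖ / ‖s + 2‖)) * (B0 * ‖riemannZeta s‖) * (2 * Real.pi ^ 2) * 20 := by
      have a1 : 1 ≤ ((1 + 3 / η) * (‖s - 1‖ / ‖s + 2‖)) * (B0 * ‖riemannZeta s‖) :=
        one_le_mul_of_one_le_of_one_le h2 hzs
      have a2 := one_le_mul_of_one_le_of_one_le a1 h4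
      exact one_le_mul_of_one_le_of_one_le a2 (by norm_num)
    calc ‖gaf 1 m4 s‖ = 1 * ‖gaf 1 m4 s‖ := by ring
      _ ≤ (((1 + 3 / η) * (‖s - 1‖ / ‖s + 2‖)) * (B0 * ‖riemannZeta s‖) * (2 * Real.pi ^ 2) * 20) *
          ‖gaf 1 m4 s‖ := by gcongr
      _ = _ := by rw [hB1]; ring
  have hexp1 : 1 ≤ Real.exp ((6 * ((1 : ℕ) : ℝ)) ^ 2 / 4 + 64) := Real.one_le_exp (by positivity)
  set E := Real.exp ((6 * ((1 : ℕ) : ℝ)) ^ 2 / 4 + 64) with hE
  have hBE : B1 ≤ B1 * E := by nlinarith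
  refine ⟨B1 * E, by linarith, ?_⟩
  refine
    { gp := gp, hC := by norm_num, hB := by linarith, hσ := by linarith, diff := diff_XX,
      fe := ⟨1, norm_one, XX_fe⟩, hi := fun s hs => ?_, lo := fun s hs => ?_,
      strip := fun s h1 h2 => ?_ }
  · exact (hhi s hs).trans (mul_le_mul_of_nonneg_right hBE (norm_nonneg _))
  · exact (hlo s hs).trans (mul_le_mul_of_nonneg_right hBE (norm_nonneg _))
  · exact strip_sharp gp (by norm_num) hB1' (by linarith) (by linarith) diff_XX hhi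
      ⟨1, norm_one, XX_fe⟩ XX_bdd h1 h2

/-- the logarithmic derivative of the gamma factor at height `t` -/
lemma gaD_near {t : ℝ} (ht : 16 ≤ t) {s : ℂ} (h1 : 1 ≤ s.re) (h2 : ‖s - I * t‖ ≤ t / 2) :
    ‖gaD 1 m4 s - ((1 / 2 * Real.log t : ℝ) : ℂ)‖ ≤ 7 := by
  have ht0 : 0 < t := by linarith
  unfold gaD m4
  simp only [Finset.univ_unique, Finset.sum_singleton]
  have hlp := logpi
  set z : ℂ := (s - -4) / 2 with hz
  have hzre : 1 / 4 ≤ z.re := by
    rw [hz, show (2 : ℂ) = ((2 : ℝ) : ℂ) by norm_num, Complex.div_ofReal_re, sub_re, neg_re, re_ofNat]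
    linarith
  have h3 := dig_aux hzre
  have hz2 : z + 2 = (s + 8) / 2 := by rw [hz]; ring
  have hup : ‖s + 8‖ ≤ 2 * t := by
    have e : s + 8 = (s - I * t) + (I * t + 8) := by ring
    rw [e]
    refine (norm_add_le _ _).trans ?_
    have h5 : ‖I * (t : ℂ) + 8‖ ≤ t + 8 := by
      refine (norm_add_le _ _).trans ?_
      rw [norm_mul, norm_I, one_mul, norm_real, Real.norm_eq_abs, abs_of_pos ht0]
      norm_num
    linarith
  have hlow : t / 2 ≤ ‖s + 8‖ := by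
    have h5 := (Complex.abs_im_le_norm (s - I * t)).trans h2
    rw [sub_im, I_mul_im, ofReal_re] at h5
    have h6 := (abs_le.mp h5).1
    have h7 := (le_abs_self _).trans (Complex.abs_im_le_norm (s + 8))
    rw [add_im, im_ofNat] at h7
    linarith
  have hne : z + 2 ≠ 0 := by
    rw [hz2]
    intro h
    have : ‖(s + 8) / 2‖ = 0 := by rw [h, norm_zero]
    rw [norm_div] at this
    norm_num at this
    rw [this, norm_zero] at hlow
    linarith
  have hlog : ‖Complex.log (z + 2) - ((Real.log t : ℝ) : ℂ)‖ ≤ 5 := by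
    have e : Complex.log (z + 2) - ((Real.log t : ℝ) : ℂ) =
        ((Real.log ‖z + 2‖ - Real.log t : ℝ) : ℂ) + (arg (z + 2) : ℂ) * I := by
      rw [Complex.log]
      push_cast
      ring
    rw [e]
    refine (norm_add_le _ _).trans ?_
    rw [norm_mul, norm_I, mul_one, norm_real, norm_real, Real.norm_eq_abs, Real.norm_eq_abs]
    have ha := abs_arg_le_pi (z + 2)
    have hpi2 := Real.pi_lt_d2
    have hn : ‖z + 2‖ = ‖s + 8‖ / 2 := by rw [hz2, norm_div]; norm_num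
    have h5 : Real.log ‖z + 2‖ ≤ Real.log t := Real.log_le_log (by rw [hn]; linarith) (by rw [hn]; linarith)
    have h6 : Real.log (t / 4) ≤ Real.log ‖z + 2‖ := Real.log_le_log (by linarith) (by rw [hn]; linarith)
    rw [Real.log_div (by linarith) (by norm_num)] at h6
    have h7 : Real.log 4 ≤ 1.5 := by
      have : Real.log 4 = 2 * Real.log 2 := by
        rw [show (4 : ℝ) = 2 ^ 2 by norm_num, Real.log_pow]; norm_num
      rw [this]
      have := Real.log_two_lt_d9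
      linarith
    have h8 : |Real.log ‖z + 2‖ - Real.log t| ≤ 1.5 := by rw [abs_le]; constructor <;> linarith
    linarith
  have e : ((Real.log 1 / 2 : ℝ) : ℂ) + (((-(Real.log Real.pi) / 2 : ℝ) : ℂ) + logDeriv Gamma z / 2) -
      ((1 / 2 * Real.log t : ℝ) : ℂ) = ((-(Real.log Real.pi) / 2 : ℝ) : ℂ) +
      ((logDeriv Gamma z - Complex.log (z + 2)) / 2 + (Complex.log (z + 2) - ((Real.log t : ℝ) : ℂ)) / 2) := by
    rw [Real.log_one]
    push_cast
    ring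
  rw [e]
  refine (norm_add_le _ _).trans ?_
  have b1 : ‖((-(Real.log Real.pi) / 2 : ℝ) : ℂ)‖ ≤ 1 := by
    rw [norm_real, Real.norm_eq_abs, abs_le]
    constructor <;> linarith
  have b2 := norm_add_le ((logDeriv Gamma z - Complex.log (z + 2)) / 2)
    ((Complex.log (z + 2) - ((Real.log t : ℝ) : ℂ)) / 2)
  rw [norm_div, norm_div] at b2
  have h1 : ‖(2 : ℂ)‖ = 2 := by norm_num
  rw [h1] at b2
  linarith

end Pool.Agent.J4H1.JP
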