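import Mathlib

set_option autoImplicit false

/-!
# The square root of `-t² + 2 i t w u`
-/

namespace Pool.Agent.J4H1.JP

open Complex Filter Topology

noncomputable def qq (w t : ℝ) (u : ℂ) : ℂ := 1 - 2 * I * w * u / t

noncomputable def rr (w t : ℝ) (u : ℂ) : ℂ := (qq w t u) ^ (1 / 2 : ℂ)

noncomputable def zz (w t : ℝ) (u : ℂ) : ℂ := I * t * rr w t u

lemma rr_sq (w t : ℝ) (u : ℂ) : rr w t u ^ 2 = qq w t u := by
  have := Complex.cpow_nat_inv_pow (qq w t u) two_ne_zero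
  rw [← this]
  unfold rr
  norm_num

lemma zz_sq {w t : ℝ} (ht : t ≠ 0) (u : ℂ) : zz w t u ^ 2 = -(t : ℂ) ^ 2 + 2 * I * t * w * u := by
  have htc : (t : ℂ) ≠ 0 := by exact_mod_cast ht
  unfold zz
  rw [mul_pow, mul_pow, I_sq, rr_sq, qq]
  field_simp
  ring_nf

variable {w t : ℝ} {u : ℂ}

lemma qq_near (hw : 0 < w) (ht : 0 < t) (hu : ‖u‖ ≤ 5) : ‖qq w t u - 1‖ ≤ 10 * w / t := by
  have e : qq w t u - 1 = -(2 * I * w * u / t) := by unfold qq; ring
  rw [e, norm_neg, norm_div, norm_mul, norm_mul, norm_mul, norm_I, norm_real, norm_real,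
    Real.norm_eq_abs, Real.norm_eq_abs, abs_of_pos hw, abs_of_pos ht]
  have : ‖(2 : ℂ)‖ = 2 := by norm_num
  rw [this]
  apply div_le_div_of_nonneg_right _ ht.le
  nlinarith

lemma qq_slit (hw : 0 < w) (ht : 0 < t) (hu : ‖u‖ ≤ 5) (hs : 10 * w / t ≤ 1 / 100) :
    qq w t u ∈ slitPlane := by
  have h := qq_near hw ht hu
  have h2 := abs_le.mp ((Complex.abs_re_le_norm (qq w t u - 1)).trans h)
  rw [sub_re, one_re] at h2
  left
  linarith

lemma rr_re_pos (hw : 0 < w) (ht : 0 < t) (hu : ‖u‖ ≤ 5) (hs : 10 * w / t ≤ 1 / 100) :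
    0 < (rr w t u).re := by
  have hq := qq_slit hw ht hu hs
  have h0 : qq w t u ≠ 0 := slitPlane_ne_zero hq
  unfold rr
  rw [cpow_def_of_ne_zero h0, Complex.exp_re]
  apply mul_pos (Real.exp_pos _)
  have h1 : (log (qq w t u) * (1 / 2)).im = arg (qq w t u) / 2 := by
    have : (1 / 2 : ℂ) = ((1 / 2 : ℝ) : ℂ) := by push_cast; rfl
    rw [this, im_mul_ofReal, log_im]
    ring
  rw [h1]
  have h2 := neg_pi_lt_arg (qq w t u)
  have h3 := arg_lt_pi_iff.mpr (mem_slitPlane_iff.mp hq |>.imp (fun h => h.le) id)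
  apply Real.cos_pos_of_mem_Ioo
  constructor <;> linarith

lemma rr_near (hw : 0 < w) (ht : 0 < t) (hu : ‖u‖ ≤ 5) (hs : 10 * w / t ≤ 1 / 100) :
    ‖rr w t u - 1‖ ≤ 10 * w / t := by
  have h1 := rr_re_pos hw ht hu hs
  have h2 := qq_near hw ht hu
  have h3 : 1 ≤ ‖rr w t u + 1‖ := by
    have := re_le_norm (rr w t u + 1)
    rw [add_re, one_re] at this
    linarith
  have e : qq w t u - 1 = (rr w t u - 1) * (rr w t u + 1) := by
    rw [← rr_sq]; ring
  rw [e, norm_mul] at h2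
  have := norm_nonneg (rr w t u - 1)
  nlinarith

lemma zz_near (hw : 0 < w) (ht : 0 < t) (hu : ‖u‖ ≤ 5) (hs : 10 * w / t ≤ 1 / 100) :
    ‖zz w t u - (I * t + w * u)‖ ≤ 100 * w ^ 2 / t := by
  have h1 := rr_re_pos hw ht hu hs
  have h2 := qq_near hw ht hu
  have h4 := rr_near hw ht hu hs
  have h3 : 1 ≤ ‖rr w t u + 1‖ := by
    have := re_le_norm (rr w t u + 1)
    rw [add_re, one_re] at this
    linarith
  have htc : (t : ℂ) ≠ 0 := by exact_mod_cast ht.ne'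
  have hq : qq w t u = 1 - 2 * I * w * u / t := rfl
  have e0 : (w : ℂ) * u = I * t * ((qq w t u - 1) / 2) := by
    rw [hq]
    have h5 : (I : ℂ) * t * ((1 - 2 * I * w * u / t - 1) / 2) = -(I ^ 2) * w * u := by
      field_simp
      ring
    rw [h5, I_sq]
    ring
  have e : zz w t u - (I * t + w * u) = -(I * t * ((rr w t u - 1) ^ 2 / 2)) := by
    rw [e0, ← rr_sq]
    unfold zz
    ring
  rw [e, norm_neg, norm_mul, norm_mul, norm_I, norm_real, Real.norm_eq_abs, abs_of_pos ht, norm_div,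
    norm_pow]
  have : ‖(2 : ℂ)‖ = 2 := by norm_num
  rw [this]
  have h5 : ‖rr w t u - 1‖ ^ 2 ≤ (10 * w / t) ^ 2 := by gcongr
  calc 1 * t * (‖rr w t u - 1‖ ^ 2 / 2) ≤ 1 * t * ((10 * w / t) ^ 2 / 2) := by gcongr
    _ = 50 * w ^ 2 / t := by field_simp; ring
    _ ≤ 100 * w ^ 2 / t := by gcongr; norm_num

lemma rr_ne (hw : 0 < w) (ht : 0 < t) (hu : ‖u‖ ≤ 5) (hs : 10 * w / t ≤ 1 / 100) :
    99 / 100 ≤ ‖rr w t u‖ ∧ rr w t u ≠ 0 := by
  have h := rr_near hw ht hu hs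
  have h2 := norm_sub_norm_le (1 : ℂ) (1 - rr w t u)
  rw [norm_one, norm_sub_rev 1 (rr w t u), show (1 : ℂ) - (1 - rr w t u) = rr w t u by ring] at h2
  have h3 : 99 / 100 ≤ ‖rr w t u‖ := by linarith
  exact ⟨h3, norm_pos_iff.mp (by linarith)⟩

lemma zz_re_nonneg (hw : 0 < w) (ht : 0 < t) (hu : ‖u‖ ≤ 5) (hs : 10 * w / t ≤ 1 / 100)
    (hr : 0 ≤ u.re) : 0 ≤ (zz w t u).re := by
  have h1 := rr_re_pos hw ht hu hs
  have h2 : (rr w t u ^ 2).im = (qq w t u).im := by rw [rr_sq]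
  have h3 : (qq w t u).im = -(2 * w * u.re / t) := by
    unfold qq
    have : (2 * I * w * u / t : ℂ) = ((2 * w / t : ℝ) : ℂ) * (I * u) := by push_cast; ring
    rw [this, sub_im, one_im, im_ofReal_mul, I_mul_im]
    ring
  rw [h3, sq, mul_im] at h2
  have h4 : 0 ≤ 2 * w * u.re / t := by positivity
  have h5 : (zz w t u).re = -(t * (rr w t u).im) := by
    unfold zz
    rw [mul_assoc, I_mul_re, im_ofReal_mul]
  rw [h5]
  have h6 : (rr w t u).im ≤ 0 := by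
    by_contra hc
    push Not at hc
    have : 0 < (rr w t u).re * (rr w t u).im := mul_pos h1 hc
    linarith
  nlinarith

lemma rr_hasDerivAt (hw : 0 < w) (ht : 0 < t) (hu : ‖u‖ ≤ 5) (hs : 10 * w / t ≤ 1 / 100) :
    HasDerivAt (rr w t) (-(I * w / (t * rr w t u))) u := by
  have hq := qq_slit hw ht hu hs
  have hr := (rr_ne hw ht hu hs).2
  have htc : (t : ℂ) ≠ 0 := by exact_mod_cast ht.ne'
  have h0 : HasDerivAt (qq w t) (-(2 * I * w / t)) u := by
    have h := (((hasDerivAt_id u).const_mul (2 * I * w : ℂ)).div_const (t : ℂ)).const_sub 1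
    refine (h.congr_deriv ?_).congr_of_eventuallyEq ?_
    · ring
    · exact Eventually.of_forall fun v => by simp [qq]
  have h1 := h0.cpow_const (c := 1 / 2) hq
  refine h1.congr_deriv ?_
  have hq0 : qq w t u ≠ 0 := slitPlane_ne_zero hq
  rw [cpow_sub _ _ hq0, cpow_one]
  have e1 : qq w t u ^ (1 / 2 : ℂ) = rr w t u := rfl
  rw [e1, ← rr_sq]
  field_simp

lemma zz_hasDerivAt (hw : 0 < w) (ht : 0 < t) (hu : ‖u‖ ≤ 5) (hs : 10 * w / t ≤ 1 / 100) :
    HasDerivAt (zz w t) (w / rr w t u) u := by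
  have h := (rr_hasDerivAt hw ht hu hs).const_mul (I * t)
  refine h.congr_deriv ?_
  have hr := (rr_ne hw ht hu hs).2
  have htc : (t : ℂ) ≠ 0 := by exact_mod_cast ht.ne'
  field_simp
  rw [show (I : ℂ) ^ 2 = -1 from I_sq]
  ring

end Pool.Agent.J4H1.JP
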