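import Pool.Agent.J4H1.JP.Shp
import Pool.Agent.J4H6.JP.Rh
import Pool.Agent.N316.ZD.TcAbs
import Pool.Agent.Y901.SHR.LogZ

set_option autoImplicit false

/-!
# The zeta function where it has no zeros
-/

namespace Pool.Agent.J4H1.JP

open Complex Set Filter Topology MeasureTheory
open scoped ComplexConjugate
open H353.E H353.F

/-- `ζ` has only finitely many zeros in `Re s > θ + ε`, for all `ε > 0` -/
def ZF (θ : ℝ) : Prop := ∀ ε : ℝ, 0 < ε → ∃ T : ℝ, ∀ s : ℂ, θ + ε < s.re → T ≤ |s.im| → riemannZeta s ≠ 0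

/-- `ξ(s)/Γ_ℝ(s+4) = 2 π² (s-1)/(s+2) ζ(s)` -/
noncomputable def Gz (s : ℂ) : ℂ := XX s * (Gammaℝ (s + 4))⁻¹

lemma diff_Gz : Differentiable ℂ Gz :=
  diff_XX.mul (differentiable_Gammaℝ_inv.comp (f := fun s : ℂ => s + 4) (by fun_prop))

lemma GR_ne {s : ℂ} (h : -4 < s.re) : Gammaℝ (s + 4) ≠ 0 := by
  apply Gammaℝ_ne_zero_of_re_pos
  rw [add_re, re_ofNat]
  linarith

lemma XX_Gz {s : ℂ} (h : -4 < s.re) : XX s = Gz s * Gammaℝ (s + 4) := by
  unfold Gz
  rw [mul_assoc, inv_mul_cancel₀ (GR_ne h), mul_one]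

lemma XX_conj (s : ℂ) : XX (conj s) = conj (XX s) := by
  unfold XX
  rw [← Xi_conj]
  congr 1
  simp only [map_sub, map_div₀, map_one, map_ofNat]

lemma GR_conj (s : ℂ) : Gammaℝ (conj s) = conj (Gammaℝ s) := by
  rw [Gammaℝ_def, Gammaℝ_def, map_mul, ← Complex.Gamma_conj]
  congr 1
  · have h := Complex.cpow_conj (Real.pi : ℂ) (-s / 2) (by
      rw [Complex.arg_ofReal_of_nonneg Real.pi_pos.le]; exact Real.pi_pos.ne)
    rw [Complex.conj_ofReal] at h
    rw [← h]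
    congr 1
    rw [map_div₀, map_neg, Complex.conj_ofNat]
  · congr 1
    rw [map_div₀, Complex.conj_ofNat]

lemma Gz_conj (s : ℂ) : Gz (conj s) = conj (Gz s) := by
  unfold Gz
  rw [XX_conj, map_mul, map_inv₀]
  congr 2
  rw [← GR_conj]
  congr 1
  simp only [map_add, map_ofNat]

lemma Gz_eq {s : ℂ} (h : 1 ≤ s.re) (h1 : s ≠ 1) :
    Gz s = 2 * Real.pi ^ 2 * ((s - 1) / (s + 2)) * riemannZeta s := by
  unfold Gz
  rw [XX_eq h h1, gaf_eq, mul_assoc _ (Gammaℝ (s + 4)), mul_inv_cancel₀ (GR_ne (by linarith)), mul_one]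

lemma Gz_ne {s : ℂ} (h : 0 < s.re) (h1 : s.im ≠ 0) (hz : riemannZeta s ≠ 0) : Gz s ≠ 0 := by
  have hs0 : s ≠ 0 := by
    rintro rfl
    simp at h
  have hs1 : s ≠ 1 := by
    rintro rfl
    simp at h1
  have hG : Gammaℝ s ≠ 0 := Gammaℝ_ne_zero_of_re_pos h
  have hc : completedRiemannZeta s ≠ 0 := by
    intro h2
    apply hz
    rw [riemannZeta_def_of_ne_zero hs0, h2, zero_div]
  unfold Gz
  refine mul_ne_zero ?_ (inv_ne_zero (GR_ne (by linarith)))
  have e : 1 / 2 + (s - 1 / 2) = s := by ring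
  have h3 := J4H6.JP.Xi_mul (z := s - 1 / 2) (by rw [e]; exact hs0) (by rw [e]; exact hs1)
  rw [e] at h3
  unfold XX
  intro h4
  rw [h4, mul_zero] at h3
  exact mul_ne_zero (mul_ne_zero hs0 (sub_ne_zero.mpr hs1)) hc h3.symm

/-- a logarithm for `Re s ≥ 5/4` -/
noncomputable def lG (s : ℂ) : ℂ := (Real.log (2 * Real.pi ^ 2) : ℝ) + Complex.log ((s - 1) / (s + 2)) +
  Pool.Agent.Y901.SHR.Lz s

lemma ratio_slit {s : ℂ} (h : 5 / 4 ≤ s.re) : (s - 1) / (s + 2) ∈ slitPlane ∧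
    1 / 20 ≤ ‖(s - 1) / (s + 2)‖ ∧ ‖(s - 1) / (s + 2)‖ ≤ 1 := by
  obtain ⟨r1, r2, r3, r4⟩ := ratio_bounds (η := 1 / 4) (by norm_num) (s := s) (by linarith)
  have hne : s + 2 ≠ 0 := norm_pos_iff.mp r4
  refine ⟨?_, ?_, ?_⟩
  · left
    have e : ((s - 1) / (s + 2)).re = ((s.re - 1) * (s.re + 2) + s.im * s.im) / normSq (s + 2) := by
      rw [div_re]
      simp only [sub_re, add_re, sub_im, add_im, one_re, one_im, re_ofNat, im_ofNat, sub_zero, add_zero]
      ring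
    rw [e]
    apply div_pos
    · nlinarith [mul_self_nonneg s.im]
    · exact normSq_pos.mpr hne
  · rw [norm_div, le_div_iff₀ r4]
    norm_num at r2
    linarith
  · rw [norm_div]
    exact (div_le_one r4).mpr r1

lemma exp_lG {s : ℂ} (h : 5 / 4 ≤ s.re) : Gz s = cexp (lG s) := by
  have hs1 : s ≠ 1 := by
    rintro rfl
    norm_num at h
  have hpi : 0 < 2 * Real.pi ^ 2 := by positivity
  rw [Gz_eq (by linarith) hs1]
  unfold lG
  rw [Complex.exp_add, Complex.exp_add, Pool.Agent.Y901.SHR.exp_Lz (by linarith),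
    Complex.exp_log (slitPlane_ne_zero (ratio_slit h).1), ← Complex.ofReal_exp, Real.exp_log hpi]
  push_cast
  ring

lemma lG_cont : ContinuousOn lG {s : ℂ | 5 / 4 ≤ s.re} := by
  unfold lG
  refine ContinuousOn.add (ContinuousOn.add continuousOn_const ?_) ?_
  · refine ContinuousOn.clog ?_ fun s hs => (ratio_slit hs).1
    refine ContinuousOn.div (by fun_prop) (by fun_prop) fun s hs h => ?_
    have := congrArg Complex.re h
    rw [add_re, re_ofNat, zero_re] at this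
    have hs' : 5 / 4 ≤ s.re := hs
    linarith
  · unfold Pool.Agent.Y901.SHR.Lz
    refine continuousOn_tsum (u := fun p : Nat.Primes => 3 / 2 * ((p : ℕ) : ℝ) ^ (-(5 / 4) : ℝ)) ?_
      ((Pool.Agent.Y901.SHR.pw_summable (by norm_num)).mul_left (3 / 2)) ?_
    · intro p s hs
      have hs' : 5 / 4 ≤ s.re := hs
      refine ContinuousAt.continuousWithinAt ?_
      refine ContinuousAt.neg (ContinuousAt.clog ?_ ?_)
      · refine continuousAt_const.sub ?_
        refine ContinuousAt.const_cpow (by fun_prop) (Or.inl ?_)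
        exact_mod_cast p.2.ne_zero
      · left
        have h1 := Pool.Agent.Y901.SHR.pw_le (s := s) (by linarith) p
        have h2 := Complex.re_le_norm (((p : ℕ) : ℂ) ^ (-s))
        rw [Complex.sub_re, Complex.one_re]
        linarith
    · intro p s hs
      have hs' : 5 / 4 ≤ s.re := hs
      refine (Pool.Agent.Y901.SHR.log_le (Pool.Agent.Y901.SHR.pw_le (by linarith) p)).trans ?_
      rw [Pool.Agent.Y901.SHR.norm_pw]
      have hp : (1 : ℝ) ≤ ((p : ℕ) : ℝ) := by exact_mod_cast p.2.one_lt.le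
      have : ((p : ℕ) : ℝ) ^ (-s.re) ≤ ((p : ℕ) : ℝ) ^ (-(5 / 4) : ℝ) :=
        Real.rpow_le_rpow_of_exponent_le hp (by linarith)
      linarith

lemma lG_bound : ∃ C : ℝ, 0 ≤ C ∧ ∀ s : ℂ, 5 / 4 ≤ s.re → ‖lG s‖ ≤ C := by
  have hsum := (Pool.Agent.Y901.SHR.pw_summable (σ := 5 / 4) (by norm_num)).mul_left (3 / 2)
  set S : ℝ := ∑' p : Nat.Primes, 3 / 2 * ((p : ℕ) : ℝ) ^ (-(5 / 4) : ℝ) with hS
  have hS0 : 0 ≤ S := tsum_nonneg fun p => by positivity
  refine ⟨|Real.log (2 * Real.pi ^ 2)| + (Real.log 20 + Real.pi) + S, ?_, fun s hs => ?_⟩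
  · have := Real.log_nonneg (show (1 : ℝ) ≤ 20 by norm_num)
    have := Real.pi_pos
    positivity
  unfold lG
  refine (norm_add_le _ _).trans (add_le_add ((norm_add_le _ _).trans (add_le_add ?_ ?_)) ?_)
  · rw [norm_real, Real.norm_eq_abs]
  · obtain ⟨h1, h2, h3⟩ := ratio_slit hs
    rw [Complex.log]
    refine (norm_add_le _ _).trans (add_le_add ?_ ?_)
    · rw [norm_real, Real.norm_eq_abs, abs_le]
      constructor
      · have h4 := Real.log_le_log (by norm_num) h2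
        rw [one_div, Real.log_inv] at h4
        exact h4
      · have h4 := Real.log_nonpos (norm_nonneg _) h3
        have := Real.log_nonneg (show (1 : ℝ) ≤ 20 by norm_num)
        linarith
    · rw [norm_mul, norm_I, mul_one, norm_real, Real.norm_eq_abs]
      exact abs_arg_le_pi _
  · unfold Pool.Agent.Y901.SHR.Lz
    have h1 : ∀ p : Nat.Primes, ‖-Complex.log (1 - ((p : ℕ) : ℂ) ^ (-s))‖ ≤
        3 / 2 * ((p : ℕ) : ℝ) ^ (-(5 / 4) : ℝ) := fun p => by
      refine (Pool.Agent.Y901.SHR.log_le (Pool.Agent.Y901.SHR.pw_le (by linarith) p)).trans ?_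
      rw [Pool.Agent.Y901.SHR.norm_pw]
      have hp : (1 : ℝ) ≤ ((p : ℕ) : ℝ) := by exact_mod_cast p.2.one_lt.le
      have : ((p : ℕ) : ℝ) ^ (-s.re) ≤ ((p : ℕ) : ℝ) ^ (-(5 / 4) : ℝ) :=
        Real.rpow_le_rpow_of_exponent_le hp (by linarith)
      linarith
    exact tsum_of_norm_bounded hsum.hasSum h1

end Pool.Agent.J4H1.JP
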